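import Mathlib

set_option autoImplicit false

/-!
# A local Frobenius
-/

namespace Pool.Agent.T9h93.NB

open Polynomial

lemma expand_sub_pow {R : Type*} [CommRing R] (p : ℕ) (hp : p.Prime)
    (h1 : ∀ a : R, (p : R) ∣ a ^ p - a) (h2 : ¬ IsUnit (p : R)) (g : R[X]) :
    ∃ r : R[X], expand R p g - g ^ p = C (p : R) * r := by
  let I : Ideal R := Ideal.span {(p : R)}
  let S := R ⧸ I
  have hnt : Nontrivial S := Ideal.Quotient.nontrivial_iff.mpr (by
    intro h
    exact h2 (Ideal.span_singleton_eq_top.mp h))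
  have hp0 : (p : S) = 0 := by
    have h3 : Ideal.Quotient.mk I (p : R) = 0 :=
      Ideal.Quotient.eq_zero_iff_mem.mpr (Ideal.mem_span_singleton_self _)
    rwa [map_natCast] at h3
  have hchar : CharP S p := (CharP.charP_iff_prime_eq_zero hp).mpr hp0
  have hfact : Fact p.Prime := ⟨hp⟩
  have hexp : ExpChar S p := ExpChar.prime hp
  have hfrob : frobenius S p = RingHom.id S := by
    refine RingHom.ext fun a => ?_
    obtain ⟨b, rfl⟩ := Ideal.Quotient.mk_surjective (I := I) a
    rw [frobenius_def, RingHom.id_apply, ← map_pow, ← sub_eq_zero, ← map_sub]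
    exact Ideal.Quotient.eq_zero_iff_mem.mpr (Ideal.mem_span_singleton.mpr (h1 b))
  have h3 : (expand R p g - g ^ p).map (Ideal.Quotient.mk I) = 0 := by
    rw [Polynomial.map_sub, Polynomial.map_pow, map_expand, ← map_frobenius_expand p, hfrob,
      Polynomial.map_id, sub_self]
  have h4 : C (p : R) ∣ expand R p g - g ^ p := by
    rw [C_dvd_iff_dvd_coeff]
    intro i
    have h5 := congrArg (fun q => q.coeff i) h3
    simp only [coeff_map, coeff_zero] at h5
    exact Ideal.mem_span_singleton.mp (Ideal.Quotient.eq_zero_iff_mem.mp h5)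
  obtain ⟨r, hr⟩ := h4
  exact ⟨r, hr⟩

theorem frob_root {R F C' : Type*} [CommRing R] [IsDomain R] [IsIntegrallyClosed R] [Field F]
    [Algebra R F] [IsFractionRing R F] [Field C'] [Algebra F C'] [Algebra R C']
    [IsScalarTower R F C'] (p : ℕ) (hp : p.Prime)
    (h1 : ∀ a : R, (p : R) ∣ a ^ p - a) (h2 : ¬ IsUnit (p : R)) (hp0 : (p : C') ≠ 0)
    (f : ℕ) (hf : 0 < f) (hpf : Nat.Coprime f p) (ζ : C') (hζ : ζ ^ f = 1) :
    aeval (ζ ^ p) (minpoly F ζ) = 0 := by
  have hinj : Function.Injective (algebraMap R C') := by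
    rw [IsScalarTower.algebraMap_eq R F C']
    exact (algebraMap F C').injective.comp (IsFractionRing.injective R F)
  have htf : FaithfulSMul R C' := (faithfulSMul_iff_algebraMap_injective R C').mpr hinj
  have hint : IsIntegral R ζ := IsIntegral.of_pow hf (by rw [hζ]; exact isIntegral_one)
  have hζ0 : ζ ≠ 0 := by
    rintro rfl
    rw [zero_pow hf.ne'] at hζ
    exact zero_ne_one hζ
  set g := minpoly R ζ with hg
  have hgF : minpoly F ζ = g.map (algebraMap R F) :=
    minpoly.isIntegrallyClosed_eq_field_fractions' F hint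
  rw [hgF, aeval_map_algebraMap]
  by_contra hne
  obtain ⟨h, hh⟩ : g ∣ X ^ f - 1 := minpoly.isIntegrallyClosed_dvd hint (by
    rw [map_sub, map_pow, aeval_X, map_one, hζ, sub_self])
  obtain ⟨r, hr⟩ := expand_sub_pow p hp h1 h2 g
  have e1 : aeval (ζ ^ p) g = (p : C') * aeval ζ r := by
    have h3 := congrArg (aeval ζ) hr
    rw [map_sub, map_pow, minpoly.aeval, zero_pow hp.ne_zero, sub_zero, expand_aeval, map_mul,
      aeval_C, map_natCast] at h3
    exact h3
  have e2 : (ζ ^ p) ^ f = 1 := by rw [← pow_mul, mul_comm, pow_mul, hζ, one_pow]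
  have e3 : aeval (ζ ^ p) h = 0 := by
    have h3 := congrArg (aeval (ζ ^ p)) hh
    rw [map_sub, map_pow, aeval_X, map_one, e2, sub_self, map_mul] at h3
    exact (mul_eq_zero.mp h3.symm).resolve_left hne
  have e4 : (f : C') * (ζ ^ p) ^ (f - 1) = aeval (ζ ^ p) g * aeval (ζ ^ p) (derivative h) := by
    have h3 := congrArg (fun q => aeval (ζ ^ p) (derivative q)) hh
    simp only [derivative_sub, derivative_X_pow, derivative_one, sub_zero, derivative_mul, map_mul,
      map_add, map_pow, aeval_X, e3, mul_zero, zero_add, map_natCast] at h3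
    exact h3
  have hint2 : IsIntegral R (ζ ^ p) := hint.pow p
  have hae : ∀ (y : C') (q : R[X]), IsIntegral R y → IsIntegral R (aeval y q) := by
    intro y q hy
    have h3 : aeval y q ∈ Algebra.adjoin R {y} := by
      rw [Algebra.adjoin_singleton_eq_range_aeval]
      exact ⟨q, rfl⟩
    exact adjoin_le_integralClosure hy h3
  set t : C' := aeval ζ r * aeval (ζ ^ p) (derivative h) * ζ ^ p with ht
  have ht1 : IsIntegral R t := ((hae _ _ hint).mul (hae _ _ hint2)).mul hint2
  have ht2 : (f : C') = p * t := by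
    have h3 : (ζ ^ p) ^ (f - 1) * ζ ^ p = 1 := by
      rw [← pow_succ, Nat.sub_add_cancel hf, e2]
    calc (f : C') = f * ((ζ ^ p) ^ (f - 1) * ζ ^ p) := by rw [h3, mul_one]
      _ = (f * (ζ ^ p) ^ (f - 1)) * ζ ^ p := by ring
      _ = _ := by rw [e4, e1, ht]; ring
  obtain ⟨u, v, huv⟩ := Nat.isCoprime_iff_coprime.mpr hpf
  have h5 : (u : C') * f + v * p = 1 := by exact_mod_cast congrArg (Int.cast : ℤ → C') huv
  have h6 : (p : C')⁻¹ = u * t + v := by
    rw [inv_eq_iff_eq_inv, eq_comm]
    apply inv_eq_of_mul_eq_one_left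
    rw [← h5, ht2]
    ring
  have h7 : IsIntegral R ((p : C')⁻¹) := by
    rw [h6]
    have hu : IsIntegral R (u : C') := by
      have := isIntegral_algebraMap (R := R) (A := C') (x := (u : R))
      rwa [map_intCast] at this
    have hv : IsIntegral R (v : C') := by
      have := isIntegral_algebraMap (R := R) (A := C') (x := (v : R))
      rwa [map_intCast] at this
    exact (hu.mul ht1).add hv
  have h8 : IsIntegral R ((p : F)⁻¹) := by
    rw [← isIntegral_algebraMap_iff (algebraMap F C').injective]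
    simpa using h7
  obtain ⟨y, hy⟩ := IsIntegrallyClosed.isIntegral_iff.mp h8
  apply h2
  have hpF : (p : F) ≠ 0 := by
    intro h
    apply hp0
    rw [← map_natCast (algebraMap F C'), h, map_zero]
  have h9 : (p : R) * y = 1 := by
    apply IsFractionRing.injective R F
    rw [map_mul, map_natCast, hy, map_one, mul_inv_cancel₀ hpF]
  exact IsUnit.of_mul_eq_one y h9

end Pool.Agent.T9h93.NB
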