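import Mathlib
import Pool.Agent.T9h93.NB.Frob

set_option autoImplicit false

/-!
# The completions of the rational numbers
-/

namespace Pool.Agent.T9h93.NB

open NumberField IsDedekindDomain HeightOneSpectrum

variable {K0 : IntermediateField ℚ (AlgebraicClosure ℚ)} [NumberField K0] (hK : K0 = ⊥)

include hK in
omit [NumberField K0] in
lemma exists_int (x : 𝓞 K0) : ∃ m : ℤ, x = (m : 𝓞 K0) := by
  have hx0 : ((x : K0) : AlgebraicClosure ℚ) ∈ (⊥ : IntermediateField ℚ (AlgebraicClosure ℚ)) := by
    rw [← hK]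
    exact (x : K0).2
  obtain ⟨q, hq⟩ := IntermediateField.mem_bot.mp hx0
  have h1 : IsIntegral ℤ ((x : K0) : AlgebraicClosure ℚ) := by
    have h2 : IsIntegral ℤ (x : K0) := x.2
    exact h2.map (algebraMap K0 (AlgebraicClosure ℚ)).toIntAlgHom
  have h3 : IsIntegral ℤ q := by
    rw [← isIntegral_algebraMap_iff (algebraMap ℚ (AlgebraicClosure ℚ)).injective, hq]
    exact h1
  obtain ⟨m, hm⟩ := IsIntegrallyClosed.isIntegral_iff.mp h3
  refine ⟨m, ?_⟩
  apply RingOfIntegers.ext
  apply Subtype.ext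
  rw [← hq, ← hm]
  simp

lemma val_algebraMap (v : HeightOneSpectrum (𝓞 K0)) (x : K0) :
    Valued.v (algebraMap K0 (v.adicCompletion K0) x) = v.valuation K0 x :=
  valuedAdicCompletion_eq_valuation' (K := K0) v x

lemma val_nat (v : HeightOneSpectrum (𝓞 K0)) (n : ℕ) :
    Valued.v ((n : ℕ) : v.adicCompletion K0) = v.valuation K0 (algebraMap (𝓞 K0) K0 (n : 𝓞 K0)) := by
  rw [← val_algebraMap]
  congr 1
  rw [map_natCast (algebraMap (𝓞 K0) K0), map_natCast (algebraMap K0 (v.adicCompletion K0))]

variable (v : HeightOneSpectrum (𝓞 K0)) (p : ℕ) (hp : p.Prime) (hv : (p : 𝓞 K0) ∈ v.asIdeal)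

include hv in
lemma val_p : Valued.v ((p : ℕ) : v.adicCompletion K0) < 1 := by
  rw [val_nat]
  exact (v.valuation_lt_one_iff_mem _).mpr hv

lemma charZero_adic : CharZero (v.adicCompletion K0) :=
  charZero_of_injective_algebraMap (algebraMap K0 (v.adicCompletion K0)).injective

include hp in
lemma val_p_ne : Valued.v ((p : ℕ) : v.adicCompletion K0) ≠ 0 := by
  have := charZero_adic v
  rw [Valuation.ne_zero_iff]
  exact_mod_cast hp.ne_zero

include hv in
lemma not_isUnit_p : ¬ IsUnit ((p : ℕ) : v.adicCompletionIntegers K0) := by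
  intro h
  rw [adicCompletionIntegers.isUnit_iff_valued_eq_one] at h
  have h1 := val_p v p hv
  have h2 : (((p : ℕ) : v.adicCompletionIntegers K0) : v.adicCompletion K0) = (p : ℕ) := by
    norm_cast
  rw [h2] at h
  rw [h] at h1
  exact lt_irrefl _ h1

include hK hp in
lemma exists_int_approx (a : v.adicCompletionIntegers K0) :
    ∃ m : ℤ, ((p : ℕ) : v.adicCompletionIntegers K0) ∣ a - m := by
  have hp0 := val_p_ne v p hp
  have hcz := charZero_adic v
  obtain ⟨b, hb⟩ : ∃ b : K0, Valued.v ((a : v.adicCompletion K0) - algebraMap K0 (v.adicCompletion K0) b) <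
      Valued.v ((p : ℕ) : v.adicCompletion K0) := by
    have hpos : 0 < ‖((p : ℕ) : v.adicCompletion K0)‖ := by
      rw [norm_pos_iff]
      exact_mod_cast hp.ne_zero
    obtain ⟨b, hb⟩ := (denseRange_algebraMap (K := K0) v).exists_dist_lt
      (a : v.adicCompletion K0) hpos
    refine ⟨b, ?_⟩
    rw [dist_eq_norm, FinitePlace.norm_def, FinitePlace.norm_def, NNReal.coe_lt_coe] at hb
    exact (WithZeroMulInt.toNNReal_strictMono (HeightOneSpectrum.one_lt_absNorm_nnreal v)).lt_iff_lt.mp hb
  have hple : Valued.v ((p : ℕ) : v.adicCompletion K0) ≤ 1 := by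
    rw [val_nat]
    exact v.valuation_le_one _
  have hale : Valued.v (a : v.adicCompletion K0) ≤ 1 := (mem_adicCompletionIntegers _ _ _).mp a.2
  have hble : v.valuation K0 b ≤ 1 := by
    rw [← val_algebraMap]
    have h1 : algebraMap K0 (v.adicCompletion K0) b =
      a - (a - algebraMap K0 (v.adicCompletion K0) b) := by ring
    rw [h1]
    refine (Valuation.map_sub _ _ _).trans (max_le hale (hb.le.trans hple))
  obtain ⟨n, hn⟩ := exists_valuation_sub_lt_of_integer v hble (Units.mk0 _ hp0)
  obtain ⟨m, hm⟩ := exists_int hK n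
  refine ⟨m, ?_⟩
  apply (adicCompletionIntegers.integers K0 v).dvd_of_le
  have e1 : algebraMap (v.adicCompletionIntegers K0) (v.adicCompletion K0) (a - m) =
      (a - algebraMap K0 (v.adicCompletion K0) b) -
        algebraMap K0 (v.adicCompletion K0) (algebraMap (𝓞 K0) K0 n - b) := by
    rw [map_sub, map_sub, hm, map_intCast, map_intCast, map_intCast]
    show (a : v.adicCompletion K0) - m = _
    ring
  have e2 : algebraMap (v.adicCompletionIntegers K0) (v.adicCompletion K0)
      ((p : ℕ) : v.adicCompletionIntegers K0) = ((p : ℕ) : v.adicCompletion K0) := map_natCast _ _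
  rw [e1, e2]
  refine (Valuation.map_sub _ _ _).trans (max_le hb.le ?_)
  rw [val_algebraMap]
  exact hn.le

include hK hp in
lemma frob_mod (a : v.adicCompletionIntegers K0) :
    ((p : ℕ) : v.adicCompletionIntegers K0) ∣ a ^ p - a := by
  obtain ⟨m, hm⟩ := exists_int_approx hK v p hp a
  have h1 : ((p : ℕ) : v.adicCompletionIntegers K0) ∣ a ^ p - (m : v.adicCompletionIntegers K0) ^ p :=
    hm.trans (sub_dvd_pow_sub_pow _ _ _)
  have h2 : ((p : ℕ) : v.adicCompletionIntegers K0) ∣
      (m : v.adicCompletionIntegers K0) ^ p - m := by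
    have h3 : (p : ℤ) ∣ m ^ p - m := by
      have hfact : Fact p.Prime := ⟨hp⟩
      rw [← ZMod.intCast_zmod_eq_zero_iff_dvd]
      push_cast
      rw [ZMod.pow_card, sub_self]
    have h4 := map_dvd (Int.castRingHom (v.adicCompletionIntegers K0)) h3
    simpa using h4
  have h5 : a ^ p - a = (a ^ p - (m : v.adicCompletionIntegers K0) ^ p) +
      ((m : v.adicCompletionIntegers K0) ^ p - m) - (a - m) := by ring
  rw [h5]
  exact ((h1.add h2).sub hm)

end Pool.Agent.T9h93.NB
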