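import Mathlib

set_option autoImplicit false

/-!
# Relative norms of `1 - ζ`
-/

namespace Pool.Agent.T9h93.NB

open Finset

/-- units among the algebraic integers -/
def IU {E : Type*} [Field E] (x : E) : Prop := IsIntegral ℤ x ∧ IsIntegral ℤ x⁻¹

section
variable {E : Type*} [Field E]

lemma IU.one : IU (1 : E) := by
  unfold IU
  rw [inv_one]
  exact ⟨isIntegral_one, isIntegral_one⟩

lemma IU.mul {x y : E} (hx : IU x) (hy : IU y) : IU (x * y) :=
  ⟨hx.1.mul hy.1, by rw [mul_inv]; exact hx.2.mul hy.2⟩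

lemma IU.inv {x : E} (hx : IU x) : IU x⁻¹ := ⟨hx.2, by rw [inv_inv]; exact hx.1⟩

lemma IU.div {x y : E} (hx : IU x) (hy : IU y) : IU (x / y) := by
  rw [div_eq_mul_inv]
  exact hx.mul hy.inv

lemma IU.pow {x : E} (hx : IU x) (n : ℕ) : IU (x ^ n) := by
  induction n with
  | zero => rw [pow_zero]; exact IU.one
  | succ n ih => rw [pow_succ]; exact ih.mul hx

lemma IU.prod {ι : Type*} (s : Finset ι) (F : ι → E) (h : ∀ i ∈ s, IU (F i)) :
    IU (∏ i ∈ s, F i) := by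
  classical
  induction s using Finset.induction_on with
  | empty => rw [prod_empty]; exact IU.one
  | insert i s hi ih =>
    rw [prod_insert hi]
    exact (h i (mem_insert_self i s)).mul (ih fun j hj => h j (mem_insert_of_mem hj))

lemma isIntegral_geom (z : E) (hz : IsIntegral ℤ z) (a : ℕ) (h1 : z ≠ 1) :
    IsIntegral ℤ ((1 - z ^ a) / (1 - z)) := by
  have h2 : (1 - z ^ a) / (1 - z) = ∑ i ∈ range a, z ^ i := by
    rw [div_eq_iff (sub_ne_zero.mpr h1.symm), ← neg_sub (z ^ a) 1, ← geom_sum_mul]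
    ring
  rw [h2]
  exact IsIntegral.sum _ fun i _ => hz.pow i

lemma IU_cyc {f : ℕ} (hf : 1 < f) {ζ : E} (hζ : IsPrimitiveRoot ζ f) (a : ℕ)
    (ha : Nat.Coprime a f) : IU ((1 - ζ ^ a) / (1 - ζ)) := by
  have hint : IsIntegral ℤ ζ := hζ.isIntegral (by omega)
  have h1 : ζ ≠ 1 := hζ.ne_one hf
  refine ⟨isIntegral_geom ζ hint a h1, ?_⟩
  have hprim : IsPrimitiveRoot (ζ ^ a) f := hζ.pow_of_coprime a ha
  obtain ⟨b, hb⟩ := (Nat.coprime_iff_isRelPrime.mp ha |> fun _ => Nat.exists_mul_mod_eq_one_of_coprime ha hf)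
  have h2 : (ζ ^ a) ^ b = ζ := by
    rw [← pow_mul, ← Nat.div_add_mod (a * b) f, pow_add, pow_mul, hζ.pow_eq_one, one_pow, one_mul,
      hb.2, pow_one]
  rw [inv_div]
  have h3 := isIntegral_geom (ζ ^ a) (hint.pow a) b (hprim.ne_one hf)
  rwa [h2] at h3

/-- a relative norm of `1 - ζ` -/
def gp (ζ : E) (g e n r : ℕ) : E := ∏ k ∈ range n, (1 - ζ ^ (g ^ (r + e * k)))

lemma map_gp {E' : Type*} [Field E'] (σ : E →+* E') (ζ : E) (ζ' : E') (g e n r s : ℕ)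
    (h : σ ζ = ζ' ^ (g ^ s)) : σ (gp ζ g e n r) = gp ζ' g e n (r + s) := by
  unfold gp
  rw [map_prod]
  refine prod_congr rfl fun k _ => ?_
  rw [map_sub, map_one, map_pow, h, ← pow_mul, ← pow_add]
  congr 3
  omega

lemma F_ne {f : ℕ} (hf : 1 < f) {ζ : E} (hζ : IsPrimitiveRoot ζ f) (g : ℕ)
    (hg : Nat.Coprime g f) (m : ℕ) : 1 - ζ ^ (g ^ m) ≠ 0 :=
  sub_ne_zero.mpr ((hζ.pow_of_coprime _ (Nat.Coprime.pow_left m hg)).ne_one hf).symm

lemma gp_ne_zero {f : ℕ} (hf : 1 < f) {ζ : E} (hζ : IsPrimitiveRoot ζ f) (g : ℕ)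
    (hg : Nat.Coprime g f) (e n r : ℕ) : gp ζ g e n r ≠ 0 :=
  prod_ne_zero_iff.mpr fun _ _ => F_ne hf hζ g hg _

lemma pow_eq_of_modEq {f : ℕ} {ζ : E} (hζ : IsPrimitiveRoot ζ f) (a b : ℕ)
    (h : a ≡ b [MOD f]) : ζ ^ a = ζ ^ b := by
  rw [← Nat.div_add_mod a f, ← Nat.div_add_mod b f, pow_add, pow_add, pow_mul, pow_mul,
    hζ.pow_eq_one, one_pow, one_pow, one_mul, one_mul, h]

lemma gp_period {f : ℕ} (hf : 1 < f) {ζ : E} (hζ : IsPrimitiveRoot ζ f) (g : ℕ)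
    (hg : Nat.Coprime g f) (e n : ℕ) (hen : g ^ (e * n) ≡ 1 [MOD f]) (r : ℕ) :
    gp ζ g e n (r + e) = gp ζ g e n r := by
  have h0 := F_ne hf hζ g hg (r + e * 0)
  apply mul_right_cancel₀ h0
  unfold gp
  have h1 : ∏ k ∈ range n, (1 - ζ ^ (g ^ (r + e + e * k))) =
      ∏ k ∈ range n, (1 - ζ ^ (g ^ (r + e * (k + 1)))) := by
    refine prod_congr rfl fun k _ => ?_
    congr 3
    ring
  rw [h1, ← prod_range_succ' (fun k => 1 - ζ ^ (g ^ (r + e * k))), prod_range_succ]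
  congr 2
  apply pow_eq_of_modEq hζ
  rw [pow_add, mul_zero, add_zero]
  simpa using (Nat.ModEq.refl (g ^ r)).mul hen

lemma gp_period' {f : ℕ} (hf : 1 < f) {ζ : E} (hζ : IsPrimitiveRoot ζ f) (g : ℕ)
    (hg : Nat.Coprime g f) (e n : ℕ) (hen : g ^ (e * n) ≡ 1 [MOD f]) (r k : ℕ) :
    gp ζ g e n (r + e * k) = gp ζ g e n r := by
  induction k with
  | zero => simp
  | succ k ih =>
    rw [mul_add, mul_one, ← add_assoc, gp_period hf hζ g hg e n hen, ih]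

theorem IU_gp [CharZero E] {f : ℕ} (hf : f.Prime) {ζ : E} (hζ : IsPrimitiveRoot ζ f) (g : ℕ)
    (hg : Nat.Coprime g f) (e n r : ℕ) (hen : e * n = f - 1) :
    IU (gp ζ g e n r ^ e / (f : E)) := by
  have h1 : 1 - ζ ≠ 0 := sub_ne_zero.mpr (hζ.ne_one hf.one_lt).symm
  have hf0 : (f : E) ≠ 0 := by exact_mod_cast hf.ne_zero
  have e1 : IU ((f : E) / (1 - ζ) ^ (f - 1)) := by
    have h2 : (f : E) = ∏ k ∈ range (f - 1), (1 - ζ ^ (k + 1)) := by
      have hf1 : f - 1 + 1 = f := Nat.sub_add_cancel hf.one_le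
      have h3 : IsPrimitiveRoot ζ (f - 1 + 1) := by rw [hf1]; exact hζ
      have h4 := h3.prod_one_sub_pow_eq_order
      rw [h4]
      have := congrArg (Nat.cast : ℕ → E) hf1
      push_cast at this
      exact this.symm
    have h5 : (f : E) / (1 - ζ) ^ (f - 1) = ∏ k ∈ range (f - 1), (1 - ζ ^ (k + 1)) / (1 - ζ) := by
      rw [prod_div_distrib, prod_const, card_range, ← h2]
    rw [h5]
    apply IU.prod
    intro k hk
    apply IU_cyc hf.one_lt hζ
    rw [mem_range] at hk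
    refine (Nat.coprime_comm.mp ((Nat.Prime.coprime_iff_not_dvd hf).mpr fun h => ?_))
    have := Nat.le_of_dvd (by omega) h
    omega
  have e2 : IU (gp ζ g e n r ^ e / (1 - ζ) ^ (f - 1)) := by
    have h5 : gp ζ g e n r ^ e / (1 - ζ) ^ (f - 1) =
        (∏ k ∈ range n, (1 - ζ ^ (g ^ (r + e * k))) / (1 - ζ)) ^ e := by
      rw [prod_div_distrib, prod_const, card_range, div_pow, ← pow_mul, mul_comm n e, hen]
      rfl
    rw [h5]
    apply IU.pow
    apply IU.prod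
    intro k _
    exact IU_cyc hf.one_lt hζ _ (Nat.Coprime.pow_left _ hg)
  have e3 := e2.div e1
  have h6 : (1 - ζ) ^ (f - 1) ≠ 0 := pow_ne_zero _ h1
  rwa [div_div_div_cancel_right₀ h6] at e3

end

end Pool.Agent.T9h93.NB
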