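import Mathlib
import Pool.Agent.T9h93.NB.Cyc

set_option autoImplicit false

/-!
# Cyclotomic data
-/

namespace Pool.Agent.T9h93.NB

open Finset Polynomial

/-- a primitive root modulo the prime `f`, and a factorisation of `f - 1` -/
structure Dat where
  f : ℕ
  g : ℕ
  e : ℕ
  n : ℕ
  hf : f.Prime
  hg : Nat.Coprime g f
  hgen : ∀ a : ℕ, Nat.Coprime a f → ∃ s : ℕ, a ≡ g ^ s [MOD f]
  he : 0 < e
  hen : e * n = f - 1

lemma exists_gen (f : ℕ) (hf : f.Prime) : ∃ g : ℕ, Nat.Coprime g f ∧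
    ∀ a : ℕ, Nat.Coprime a f → ∃ s : ℕ, a ≡ g ^ s [MOD f] := by
  have : Fact f.Prime := ⟨hf⟩
  obtain ⟨u, hu⟩ := IsCyclic.exists_generator (α := (ZMod f)ˣ)
  refine ⟨(u : ZMod f).val, ZMod.val_coe_unit_coprime u, fun a ha => ?_⟩
  have h1 := hu (ZMod.unitOfCoprime a ha)
  rw [mem_zpowers_iff_mem_range_orderOf] at h1
  obtain ⟨s, _, hs⟩ := Finset.mem_image.mp h1
  refine ⟨s, ?_⟩
  rw [← ZMod.natCast_eq_natCast_iff]
  push_cast
  rw [ZMod.natCast_val, ZMod.cast_id]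
  have h2 := congrArg (Units.val) hs
  simp only [Units.val_pow_eq_pow_val, ZMod.coe_unitOfCoprime] at h2
  exact h2.symm

variable (D : Dat)

lemma Dat.fermat : D.g ^ (D.e * D.n) ≡ 1 [MOD D.f] := by
  have h := Nat.ModEq.pow_totient D.hg
  rwa [Nat.totient_prime D.hf, ← D.hen] at h

lemma Dat.npos : 0 < D.n := by
  rcases Nat.eq_zero_or_pos D.n with h | h
  · have h1 := D.hen
    rw [h, mul_zero] at h1
    have := D.hf.two_le
    omega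
  · exact h

lemma Dat.conj {E : Type*} [Field E] {ζ ζ' : E} (hζ : IsPrimitiveRoot ζ D.f)
    (hζ' : IsPrimitiveRoot ζ' D.f) : ∃ s : ℕ, ζ' = ζ ^ (D.g ^ s) := by
  have : NeZero D.f := ⟨D.hf.ne_zero⟩
  obtain ⟨i, hi, hic, hi'⟩ := (hζ.isPrimitiveRoot_iff).mp hζ'
  obtain ⟨s, hs⟩ := D.hgen i hic
  exact ⟨s, by rw [← hi', pow_eq_of_modEq hζ _ _ hs]⟩

/-- the periods -/
noncomputable abbrev Dat.pi {E : Type*} [Field E] (ζ : E) (r : ℕ) : E := gp ζ D.g D.e D.n r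

section
variable {E : Type*} [Field E] {ζ : E} (hζ : IsPrimitiveRoot ζ D.f)
include hζ

lemma Dat.pi_period (r k : ℕ) : D.pi ζ (r + D.e * k) = D.pi ζ r :=
  gp_period' D.hf.one_lt hζ D.g D.hg D.e D.n D.fermat r k

lemma Dat.pi_mod (r : ℕ) : D.pi ζ r = D.pi ζ (r % D.e) := by
  conv_lhs => rw [← Nat.mod_add_div r D.e]
  exact D.pi_period hζ _ _

lemma Dat.pi_ne_zero (r : ℕ) : D.pi ζ r ≠ 0 :=
  gp_ne_zero D.hf.one_lt hζ D.g D.hg D.e D.n r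

lemma Dat.IU_pi [CharZero E] (r : ℕ) : IU (D.pi ζ r ^ D.e / (D.f : E)) :=
  IU_gp D.hf hζ D.g D.hg D.e D.n r D.hen

/-- a field automorphism permutes the periods -/
lemma Dat.map_pi (σ : E →+* E) : ∃ s : ℕ, σ ζ = ζ ^ (D.g ^ s) ∧
    ∀ r, σ (D.pi ζ r) = D.pi ζ (r + s) := by
  obtain ⟨s, hs⟩ := D.conj hζ (hζ.map_of_injective σ.injective)
  exact ⟨s, hs, fun r => map_gp σ ζ ζ D.g D.e D.n r s hs⟩

end

end Pool.Agent.T9h93.NB
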