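import Mathlib

set_option autoImplicit false

/-!
# From the local estimates to a lower bound for the height
-/

namespace Pool.Agent.T9h93.NB

open NumberField Finset Height Module Function

lemma fin_natCast {L : Type*} [Field L] [NumberField L] (c : ℕ) (hc : c ≠ 0) :
    (∏ᶠ v : FinitePlace L, v (c : L)) * (c : ℝ) ^ finrank ℚ L = 1 := by
  have hcL : (c : L) ≠ 0 := by exact_mod_cast hc
  have h7 := NumberField.prod_abs_eq_one hcL
  have h8 : ∏ v : InfinitePlace L, v (c : L) ^ v.mult = (c : ℝ) ^ finrank ℚ L := by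
    rw [← InfinitePlace.sum_mult_eq (K := L), ← Finset.prod_pow_eq_pow_sum]
    refine Finset.prod_congr rfl fun v _ => ?_
    rw [← InfinitePlace.norm_embedding_eq, map_natCast, Complex.norm_natCast]
  rw [h8] at h7
  rw [mul_comm]
  exact h7

theorem global_bound {L : Type*} [Field L] [NumberField L] (f e : ℕ) (hf : f ≠ 0)
    (α β : L) (hne : α ≠ β)
    (h : ∀ w : FinitePlace L, w (β - α) ^ e ≤ w (f : L) * (max (w α) 1 * max (w β) 1) ^ e) :
    (f : ℝ) ^ finrank ℚ L ≤ (2 ^ finrank ℚ L * (mulHeight₁ α * mulHeight₁ β)) ^ e := by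
  classical
  set d := finrank ℚ L with hd
  have hβ : β - α ≠ 0 := sub_ne_zero.mpr hne.symm
  have hfL : (f : L) ≠ 0 := by exact_mod_cast hf
  have hfs : ∀ y : L, (HasFiniteMulSupport fun v : FinitePlace L => max (v y) 1) := by
    intro y
    by_cases h0 : y = 0
    · have : (fun v : FinitePlace L => max (v y) 1) = fun _ => 1 := by
        funext v
        rw [h0, map_zero]
        exact max_eq_right zero_le_one
      rw [this]
      exact hasFiniteMulSupport_one
    · exact (FinitePlace.hasFiniteMulSupport h0).max hasFiniteMulSupport_one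
  have hpf := NumberField.prod_abs_eq_one hβ
  have hfs2 : HasFiniteMulSupport fun v : FinitePlace L => max (v α) 1 * max (v β) 1 :=
    (hfs α).mul (hfs β)
  have hfs3 : HasFiniteMulSupport fun v : FinitePlace L => (max (v α) 1 * max (v β) 1) ^ e :=
    hfs2.pow e
  -- the finite part
  have h1 : (∏ᶠ w : FinitePlace L, w (β - α)) ^ e ≤
      (∏ᶠ w : FinitePlace L, w (f : L)) *
        ((∏ᶠ w : FinitePlace L, max (w α) 1) * ∏ᶠ w : FinitePlace L, max (w β) 1) ^ e := by
    rw [finprod_pow (FinitePlace.hasFiniteMulSupport hβ),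
      ← finprod_mul_distrib (hfs α) (hfs β), finprod_pow hfs2,
      ← finprod_mul_distrib (FinitePlace.hasFiniteMulSupport hfL) hfs3]
    apply finprod_le_finprod
    · exact (FinitePlace.hasFiniteMulSupport hβ).pow e
    · exact fun w => pow_nonneg (apply_nonneg w _) e
    · exact (FinitePlace.hasFiniteMulSupport hfL).mul (hfs2.pow e)
    · exact h
  -- the infinite part
  have h2 : ∏ v : InfinitePlace L, v (β - α) ^ v.mult ≤
      2 ^ d * ((∏ v : InfinitePlace L, max (v α) 1 ^ v.mult) *
        ∏ v : InfinitePlace L, max (v β) 1 ^ v.mult) := by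
    rw [hd, ← InfinitePlace.sum_mult_eq (K := L), ← prod_pow_eq_pow_sum, ← prod_mul_distrib,
      ← prod_mul_distrib]
    apply prod_le_prod
    · intro v _
      exact pow_nonneg (apply_nonneg v _) _
    · intro v _
      rw [← mul_pow, ← mul_pow]
      apply pow_le_pow_left₀ (apply_nonneg v _)
      have h3 : v (β - α) ≤ v β + v α := by
        rw [← InfinitePlace.norm_embedding_eq, ← InfinitePlace.norm_embedding_eq,
          ← InfinitePlace.norm_embedding_eq, map_sub]
        exact norm_sub_le _ _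
      have h4 : v α ≤ max (v α) 1 := le_max_left _ _
      have h5 : v β ≤ max (v β) 1 := le_max_left _ _
      have h6 : 1 ≤ max (v α) 1 := le_max_right _ _
      have h7 : 1 ≤ max (v β) 1 := le_max_right _ _
      nlinarith
  have h3 : 0 ≤ ∏ᶠ w : FinitePlace L, w (β - α) := finprod_nonneg fun w => apply_nonneg w _
  have h4 : 0 ≤ ∏ v : InfinitePlace L, v (β - α) ^ v.mult :=
    prod_nonneg fun v _ => pow_nonneg (apply_nonneg v _) _
  have h5 := fin_natCast (L := L) f hf
  have hfpos : (0 : ℝ) < (f : ℝ) ^ d := by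
    have : 0 < f := Nat.pos_of_ne_zero hf
    positivity
  have h6 : (1 : ℝ) ≤ (2 ^ d * ((∏ v : InfinitePlace L, max (v α) 1 ^ v.mult) *
        ∏ v : InfinitePlace L, max (v β) 1 ^ v.mult)) ^ e *
      ((∏ᶠ w : FinitePlace L, w (f : L)) *
        ((∏ᶠ w : FinitePlace L, max (w α) 1) * ∏ᶠ w : FinitePlace L, max (w β) 1) ^ e) := by
    calc (1 : ℝ) = (∏ v : InfinitePlace L, v (β - α) ^ v.mult) ^ e *
          (∏ᶠ w : FinitePlace L, w (β - α)) ^ e := by
          rw [← mul_pow, hpf, one_pow]
      _ ≤ _ := by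
          apply mul_le_mul _ h1 (pow_nonneg h3 e) _
          · exact pow_le_pow_left₀ h4 h2 e
          · exact pow_nonneg (h4.trans h2) e
  have h7 : (f : ℝ) ^ d = (f : ℝ) ^ d * 1 := (mul_one _).symm
  rw [h7]
  refine (mul_le_mul_of_nonneg_left h6 hfpos.le).trans ?_
  rw [NumberField.mulHeight₁_eq, NumberField.mulHeight₁_eq]
  apply le_of_eq
  have h8 : (f : ℝ) ^ d * ∏ᶠ w : FinitePlace L, w (f : L) = 1 := by rw [mul_comm]; exact h5
  calc _ = ((f : ℝ) ^ d * ∏ᶠ w : FinitePlace L, w (f : L)) *
      ((2 ^ d * ((∏ v : InfinitePlace L, max (v α) 1 ^ v.mult) *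
        ∏ v : InfinitePlace L, max (v β) 1 ^ v.mult)) *
        ((∏ᶠ w : FinitePlace L, max (w α) 1) * ∏ᶠ w : FinitePlace L, max (w β) 1)) ^ e := by
        rw [mul_pow _ (_ * _) e]; ring
    _ = _ := by
        rw [h8, one_mul]
        congr 1
        ring

/-- the logarithmic form -/
theorem global_bound_log {L : Type*} [Field L] [NumberField L] (f e : ℕ) (hf : f ≠ 0)
    (α β : L) (hne : α ≠ β)
    (h : ∀ w : FinitePlace L, w (β - α) ^ e ≤ w (f : L) * (max (w α) 1 * max (w β) 1) ^ e) :
    (finrank ℚ L : ℝ) * Real.log f ≤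
      e * (finrank ℚ L * Real.log 2 + (Real.log (mulHeight₁ α) + Real.log (mulHeight₁ β))) := by
  have h1 := global_bound f e hf α β hne h
  have hfpos : (0 : ℝ) < (f : ℝ) ^ finrank ℚ L := by
    have : 0 < f := Nat.pos_of_ne_zero hf
    positivity
  have h2 := Real.log_le_log hfpos h1
  have hα := mulHeight₁_pos α
  have hβ := mulHeight₁_pos β
  rw [Real.log_pow, Real.log_pow, Real.log_mul (by positivity) (by positivity), Real.log_pow,
    Real.log_mul hα.ne' hβ.ne'] at h2
  exact h2

end Pool.Agent.T9h93.NB
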