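import Mathlib

set_option autoImplicit false

/-!
# The local estimate
-/

namespace Pool.Agent.T9h93.NB

open NumberField Finset

section
variable {L : Type*} [Field L] [NumberField L] (w : FinitePlace L)

lemma fp_sum_le {ι : Type*} (s : Finset ι) (F : ι → L) (B : ℝ) (hB : 0 ≤ B)
    (h : ∀ i ∈ s, w (F i) ≤ B) : w (∑ i ∈ s, F i) ≤ B := by
  classical
  induction s using Finset.induction_on with
  | empty => rw [sum_empty, map_zero]; exact hB
  | insert i s hi ih =>
    rw [sum_insert hi]
    exact (FinitePlace.add_le w _ _).trans (max_le (h i (mem_insert_self i s))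
      (ih fun j hj => h j (mem_insert_of_mem hj)))

lemma fp_sum_eq {ι : Type*} [DecidableEq ι] (s : Finset ι) (F : ι → L) (i0 : ι) (hi0 : i0 ∈ s)
    (h : ∀ i ∈ s, i ≠ i0 → w (F i) < w (F i0)) (hpos : 0 < w (F i0)) :
    w (F i0) ≤ w (∑ i ∈ s, F i) := by
  by_contra hcon
  rw [not_le] at hcon
  have h1 : F i0 = (∑ i ∈ s, F i) + -(∑ i ∈ s.erase i0, F i) := by
    rw [← add_sum_erase s F hi0]
    ring
  have h2 : w (∑ i ∈ s.erase i0, F i) < w (F i0) := by
    rcases (s.erase i0).eq_empty_or_nonempty with he | hne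
    · rw [he, sum_empty, map_zero]
      exact hpos
    · obtain ⟨j, hj, hmax⟩ := exists_max_image (s.erase i0) (fun i => w (F i)) hne
      refine lt_of_le_of_lt (fp_sum_le w (s.erase i0) F (w (F j)) (apply_nonneg w _) hmax) ?_
      exact h j (mem_of_mem_erase hj) (ne_of_mem_erase hj)
  have h3 : w (F i0) < w (F i0) := by
    conv_lhs => rw [h1]
    refine lt_of_le_of_lt (FinitePlace.add_le w _ _) (max_lt hcon ?_)
    rw [map_neg_eq_map]
    exact h2
  exact lt_irrefl _ h3

/-- the values of the monomials -/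
lemma exponent (e : ℕ) (he : 0 < e) (p : L) (F : ℝ) (hF0 : 0 < F)
    (hp : w p ^ e = F) (a : L) (n : ℤ) (ha : w a = F ^ n) (i : ℕ) :
    w (a * p ^ i) = w p ^ (e * n + i : ℤ) := by
  have hx0 : w p ≠ 0 := by
    intro h
    rw [h, zero_pow he.ne'] at hp
    linarith
  rw [map_mul, map_pow, ha, ← hp, zpow_add₀ hx0, zpow_mul, zpow_natCast, zpow_natCast]

lemma x_lt_one (e : ℕ) (p : L) (F : ℝ) (hF1 : F < 1) (hp : w p ^ e = F) : w p < 1 := by
  by_contra hcon
  rw [not_lt] at hcon
  have := one_le_pow₀ (n := e) hcon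
  linarith

lemma x_pos (e : ℕ) (he : 0 < e) (p : L) (F : ℝ) (hF0 : 0 < F) (hp : w p ^ e = F) : 0 < w p := by
  rcases (apply_nonneg w p).lt_or_eq with h | h
  · exact h
  · rw [← h, zero_pow he.ne'] at hp
    linarith

theorem max_formula (e : ℕ) (he : 0 < e) (p : L) (F : ℝ) (hF0 : 0 < F) (hF1 : F < 1)
    (hp : w p ^ e = F) (a : ℕ → L) (ha : ∀ i < e, a i ≠ 0 → ∃ n : ℤ, w (a i) = F ^ n) :
    ∀ i < e, w (a i * p ^ i) ≤ w (∑ i ∈ range e, a i * p ^ i) := by
  have hx0 := x_pos w e he p F hF0 hp
  have hx1 := x_lt_one w e p F hF1 hp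
  have hne : (range e).Nonempty := ⟨0, mem_range.mpr he⟩
  obtain ⟨i0, hi0, hmax⟩ := exists_max_image (range e) (fun i => w (a i * p ^ i)) hne
  intro i hi
  refine (hmax i (mem_range.mpr hi)).trans ?_
  rcases (apply_nonneg w (a i0 * p ^ i0)).lt_or_eq with hpos | hzero
  · apply fp_sum_eq w (range e) (fun i => a i * p ^ i) i0 hi0 _ hpos
    intro j hj hji
    refine lt_of_le_of_ne (hmax j hj) fun heq => hji ?_
    have ha0 : a i0 ≠ 0 := by
      intro h
      rw [h, zero_mul, map_zero] at hpos
      exact lt_irrefl _ hpos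
    have haj : a j ≠ 0 := by
      intro h
      simp only [h, zero_mul, map_zero] at heq
      rw [← heq] at hpos
      exact lt_irrefl _ hpos
    obtain ⟨n0, hn0⟩ := ha i0 (mem_range.mp hi0) ha0
    obtain ⟨n, hn⟩ := ha j (mem_range.mp hj) haj
    rw [exponent w e he p F hF0 hp _ n hn, exponent w e he p F hF0 hp _ n0 hn0] at heq
    have hinj := zpow_right_injective₀ hx0 hx1.ne heq
    have hj' := mem_range.mp hj
    have hi0' := mem_range.mp hi0
    have h1 : ((j : ℤ)) % e = (i0 : ℤ) % e := by
      have h2 : (j : ℤ) = i0 + e * (n0 - n) := by linear_combination hinj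
      rw [h2, Int.add_mul_emod_self_left]
    rw [Int.emod_eq_of_lt (by omega) (by exact_mod_cast hj'),
      Int.emod_eq_of_lt (by omega) (by exact_mod_cast hi0')] at h1
    exact_mod_cast h1
  · rw [← hzero]
    exact apply_nonneg w _

theorem local_bound (e : ℕ) (he : 0 < e) (p p' : L) (F : ℝ) (hF0 : 0 < F) (hF1 : F < 1)
    (hp : w p ^ e = F) (hp' : w p' ^ e = F) (a : ℕ → L)
    (ha : ∀ i < e, a i ≠ 0 → ∃ n : ℤ, w (a i) = F ^ n) :
    w ((∑ i ∈ range e, a i * p' ^ i) - ∑ i ∈ range e, a i * p ^ i) ≤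
      w p * (max (w (∑ i ∈ range e, a i * p ^ i)) 1 * max (w (∑ i ∈ range e, a i * p' ^ i)) 1) := by
  have hx0 := x_pos w e he p F hF0 hp
  have hx1 := x_lt_one w e p F hF1 hp
  have hpp : w p' = w p := by
    apply (pow_left_inj₀ (apply_nonneg w _) (apply_nonneg w _) he.ne').mp
    rw [hp, hp']
  set A := w (∑ i ∈ range e, a i * p ^ i) with hA
  set A' := w (∑ i ∈ range e, a i * p' ^ i) with hA'
  have hm1 : 1 ≤ max A 1 := le_max_right _ _
  have hm1' : 1 ≤ max A' 1 := le_max_right _ _
  rw [← sum_sub_distrib]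
  apply fp_sum_le w
  · positivity
  · intro i hi
    have hi' := mem_range.mp hi
    have h1 : w (a i * p ^ i) ≤ A := max_formula w e he p F hF0 hF1 hp a ha i hi'
    have h2 : w (a i * p' ^ i) ≤ A' := max_formula w e he p' F hF0 hF1 hp' a ha i hi'
    have h3 : w (a i * p' ^ i) = w (a i * p ^ i) := by
      rw [map_mul, map_mul, map_pow, map_pow, hpp]
    rcases Nat.eq_zero_or_pos i with h0 | hipos
    · rw [h0, pow_zero, pow_zero, sub_self, map_zero]
      positivity
    · have h4 : w (a i * p' ^ i - a i * p ^ i) ≤ w (a i * p ^ i) := by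
        rw [sub_eq_add_neg]
        refine (FinitePlace.add_le w _ _).trans ?_
        rw [map_neg_eq_map, h3, max_self]
      refine h4.trans ?_
      by_cases ha0 : a i = 0
      · rw [ha0, zero_mul, map_zero]
        positivity
      · obtain ⟨n, hn⟩ := ha i hi' ha0
        set t := w (a i * p ^ i) with ht
        have h5 : t = w p ^ (e * n + i : ℤ) := exponent w e he p F hF0 hp _ n hn i
        have hne : (e * n + i : ℤ) ≠ 0 := by
          intro h
          have h6 : (i : ℤ) = e * (-n) := by linarith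
          have h7 : (e : ℤ) ∣ i := ⟨-n, h6⟩
          have h8 := Int.natCast_dvd_natCast.mp h7
          have := Nat.le_of_dvd hipos h8
          omega
        rcases lt_or_gt_of_ne hne with hneg | hpos
        · have h6 : 1 ≤ t * w p := by
            rw [h5]
            have h7 : w p ^ (e * n + i : ℤ) * w p = w p ^ ((e * n + i : ℤ) + 1) := by
              rw [zpow_add₀ hx0.ne' _ 1, zpow_one]
            rw [h7]
            have h8 : (e * n + i : ℤ) + 1 ≤ 0 := by omega
            exact one_le_zpow_of_nonpos₀ hx0 hx1.le h8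
          have ht0 : 0 ≤ t := apply_nonneg w _
          calc t = t * 1 := (mul_one t).symm
            _ ≤ t * (t * w p) := mul_le_mul_of_nonneg_left h6 ht0
            _ = w p * (t * t) := by ring
            _ ≤ w p * (max A 1 * max A' 1) := by
              apply mul_le_mul_of_nonneg_left _ hx0.le
              apply mul_le_mul (h1.trans (le_max_left _ _)) _ ht0 (by positivity)
              rw [h3] at h2
              exact h2.trans (le_max_left _ _)
        · have h6 : t ≤ w p := by
            rw [h5]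
            calc w p ^ (e * n + i : ℤ) ≤ w p ^ (1 : ℤ) :=
                  zpow_le_zpow_right_of_le_one₀ hx0 hx1.le (by omega)
              _ = w p := zpow_one _
          calc t ≤ w p := h6
            _ = w p * (1 * 1) := by ring
            _ ≤ _ := by
              apply mul_le_mul_of_nonneg_left _ hx0.le
              exact mul_le_mul hm1 hm1' zero_le_one (by positivity)

end

end Pool.Agent.T9h93.NB
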