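import Mathlib

set_option autoImplicit false

/-!
# Values of unramified elements at finite places
-/

namespace Pool.Agent.T9h93.NB

open NumberField IsDedekindDomain IsDedekindDomain.HeightOneSpectrum WithZero

lemma intValuation_f (K : Type*) [Field K] [NumberField K] (f : ℕ) (hf0 : f ≠ 0)
    (hsq : Squarefree (Ideal.span {(f : 𝓞 K)})) (v : HeightOneSpectrum (𝓞 K))
    (hv : (f : 𝓞 K) ∈ v.asIdeal) : v.intValuation (f : 𝓞 K) = exp (-1 : ℤ) := by
  have hf0' : (f : 𝓞 K) ≠ 0 := by exact_mod_cast hf0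
  have h1 : v.intValuation (f : 𝓞 K) ≤ exp (-((1 : ℕ) : ℤ)) := by
    rw [intValuation_le_pow_iff_mem, pow_one]
    exact hv
  have h2 : ¬ v.intValuation (f : 𝓞 K) ≤ exp (-((2 : ℕ) : ℤ)) := by
    intro h
    rw [intValuation_le_pow_iff_dvd, pow_two] at h
    have := hsq _ h
    rw [Ideal.isUnit_iff] at this
    exact v.isPrime.ne_top this
  rw [intValuation_eq_exp_neg_multiplicity v hf0'] at h1 h2 ⊢
  rw [exp_le_exp] at h1 h2
  congr 1
  push_cast at h1 h2
  omega

/-- the values at `w` of the elements of a field in which `f` is squarefree are powers of the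
value of `f` -/
theorem exists_zpow (K L : Type*) [Field K] [NumberField K] [Field L] [NumberField L]
    [Algebra K L] (f : ℕ) (hf0 : f ≠ 0) (hsq : Squarefree (Ideal.span {(f : 𝓞 K)}))
    (w : FinitePlace L) (hw : w (f : L) < 1) (a : K) (ha : a ≠ 0) :
    ∃ n : ℤ, w (algebraMap K L a) = w (f : L) ^ n := by
  set W := w.maximalIdeal with hW
  set V : HeightOneSpectrum (𝓞 K) := HeightOneSpectrum.under (𝓞 K) W with hV
  have hlies : W.asIdeal.LiesOver V.asIdeal := ⟨rfl⟩
  have hfW : (f : 𝓞 L) ∈ W.asIdeal := by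
    rw [← FinitePlace.norm_lt_one_iff_mem L, FinitePlace.norm_embedding_eq]
    simpa using hw
  have hfV : (f : 𝓞 K) ∈ V.asIdeal := by
    show (algebraMap (𝓞 K) (𝓞 L) (f : 𝓞 K)) ∈ W.asIdeal
    rw [map_natCast]
    exact hfW
  have hvf : V.valuation K (f : K) = exp (-1 : ℤ) := by
    have h1 := valuation_of_algebraMap (K := K) V (f : 𝓞 K)
    rw [intValuation_f K f hf0 hsq V hfV] at h1
    simpa using h1
  have hva : V.valuation K a ≠ 0 := (Valuation.ne_zero_iff _).mpr ha
  obtain ⟨m, hm⟩ : ∃ m : ℤ, V.valuation K a = exp m := by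
    obtain ⟨m, hm⟩ := WithZero.ne_zero_iff_exists.mp hva
    exact ⟨Multiplicative.toAdd m, hm.symm⟩
  have hmf : V.valuation K a = V.valuation K (f : K) ^ (-m) := by
    rw [hm, hvf, ← exp_zsmul]
    simp
  have hwf : ∀ x : L, w x = (WithZeroMulInt.toNNReal (HeightOneSpectrum.absNorm_ne_zero W) (W.valuation L x) : ℝ) := by
    intro x
    rw [← FinitePlace.norm_embedding_eq w x, FinitePlace.norm_embedding']
  refine ⟨-m, ?_⟩
  have h1 := valuation_liesOver L V W a
  have h2 := valuation_liesOver L V W (f : K)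
  have h3 : W.valuation L (algebraMap K L a) = W.valuation L (f : L) ^ (-m) := by
    rw [← h1, hmf, ← zpow_natCast, zpow_comm, zpow_natCast, h2]
    simp
  rw [hwf, hwf, h3, map_zpow₀, NNReal.coe_zpow]

end Pool.Agent.T9h93.NB
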