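import Mathlib
import Pool.Agent.T9h93.NB.Gen
import Pool.Agent.T9h93.NB.Place
import Pool.Agent.T9h93.NB.Local
import Pool.Agent.T9h93.NB.Global
import Pool.Agent.W70.LD.Mahler

set_option autoImplicit false

/-!
# The height of a new element
-/

namespace Pool.Agent.T9h93.NB

open NumberField Finset Polynomial Height Module IntermediateField
open Pool.Agent.H58P (Qb ht qb_isIntegral)
open Pool.Agent.Helper259.AbsHt

section places
variable {L : Type*} [Field L] [NumberField L] (w : FinitePlace L)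

lemma fp_integral_le_one (y : L) (hy : IsIntegral ℤ y) : w y ≤ 1 := by
  have h := FinitePlace.norm_le_one (v := w.maximalIdeal) L (⟨y, hy⟩ : 𝓞 L)
  rw [FinitePlace.norm_embedding_eq] at h
  exact h

lemma fp_nat_le_one (n : ℕ) : w (n : L) ≤ 1 := by
  apply fp_integral_le_one
  have := isIntegral_algebraMap (R := ℤ) (A := L) (x := (n : ℤ))
  simpa using this

lemma fp_IU (y : L) (hy0 : y ≠ 0) (hy : IU y) : w y = 1 := by
  apply le_antisymm (fp_integral_le_one w y hy.1)
  have h := fp_integral_le_one w y⁻¹ hy.2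
  rw [map_inv₀] at h
  have h0 : 0 < w y := FinitePlace.pos_iff.mpr hy0
  exact (inv_le_one₀ h0).mp h

end places

section
variable (D : Dat) {ζ : Qb} (hζ : IsPrimitiveRoot ζ D.f)
include hζ

lemma conj_pi (r0 : ℕ) (y : Qb) (hy : aeval y (minpoly ℚ (D.pi ζ r0)) = 0) :
    ∃ r < D.e, y = D.pi ζ r := by
  have hconj : IsConjRoot ℚ (D.pi ζ r0) y :=
    (minpoly.eq_of_irreducible_of_monic (minpoly.irreducible (qb_isIntegral _)) hy
      (minpoly.monic (qb_isIntegral _)))
  have hcl : IsAlgClosure ℚ Qb := ⟨inferInstance, ⟨fun z => (qb_isIntegral z).isAlgebraic⟩⟩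
  have hn : Normal ℚ Qb := IsAlgClosure.normal ℚ Qb
  obtain ⟨σ, hσ⟩ := isConjRoot_iff_exists_algEquiv.mp hconj.symm
  obtain ⟨s, _, hs⟩ := D.map_pi hζ (σ : Qb →+* Qb)
  refine ⟨(r0 + s) % D.e, Nat.mod_lt _ D.he, ?_⟩
  rw [← D.pi_mod hζ, ← hs]
  exact hσ.symm

omit hζ in
lemma natDegree_le_of_conj (k : ℕ) (h : ∀ y : Qb, aeval y (minpoly ℚ (D.pi ζ 0)) = 0 →
    ∃ r < k, y = D.pi ζ r) : (minpoly ℚ (D.pi ζ 0)).natDegree ≤ k := by
  classical
  have hsep : ((minpoly ℚ (D.pi ζ 0)).map (algebraMap ℚ Qb)).Separable :=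
    (minpoly.irreducible (qb_isIntegral _)).separable.map
  have hsplit := IsAlgClosed.splits ((minpoly ℚ (D.pi ζ 0)).map (algebraMap ℚ Qb))
  have h1 : ((minpoly ℚ (D.pi ζ 0)).map (algebraMap ℚ Qb)).roots.toFinset ⊆
      (range k).image fun r => D.pi ζ r := by
    intro y hy
    rw [Multiset.mem_toFinset, mem_roots', IsRoot.def, eval_map_algebraMap] at hy
    obtain ⟨r, hr, hyr⟩ := h y hy.2
    exact mem_image.mpr ⟨r, mem_range.mpr hr, hyr.symm⟩
  have h2 := card_le_card h1
  rw [Multiset.toFinset_card_of_nodup (nodup_roots hsep), ← hsplit.natDegree_eq_card_roots,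
    natDegree_map] at h2
  exact h2.trans (card_image_le.trans (card_range k).le)

lemma natDegree_le : (minpoly ℚ (D.pi ζ 0)).natDegree ≤ D.e :=
  natDegree_le_of_conj D D.e (conj_pi D hζ 0)

lemma expansion (K : IntermediateField ℚ Qb) (x : Qb)
    (hx : x ∈ K ⊔ IntermediateField.adjoin ℚ {D.pi ζ 0}) :
    ∃ c : ℕ → K, x = ∑ i ∈ range D.e, (c i : Qb) * (D.pi ζ 0) ^ i := by
  set π := D.pi ζ 0 with hπ
  have h0 : K ⊔ IntermediateField.adjoin ℚ {π} ≤
      (IntermediateField.adjoin K {π}).restrictScalars ℚ := by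
    apply sup_le
    · intro y hy
      exact (IntermediateField.adjoin K {π}).algebraMap_mem ⟨y, hy⟩
    · rw [IntermediateField.adjoin_le_iff]
      intro y hy
      rw [Set.mem_singleton_iff] at hy
      rw [hy]
      exact IntermediateField.mem_adjoin_simple_self K π
  have hxK : x ∈ IntermediateField.adjoin K {π} := h0 hx
  have halg : IsAlgebraic K π := ((qb_isIntegral π).tower_top).isAlgebraic
  have h1 : x ∈ (IntermediateField.adjoin K {π}).toSubalgebra := hxK
  rw [adjoin_simple_toSubalgebra_of_isAlgebraic halg, Algebra.adjoin_singleton_eq_range_aeval] at h1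
  obtain ⟨p, hp⟩ := h1
  have hp' : aeval π p = x := hp
  set q : K[X] := (minpoly ℚ π).map (algebraMap ℚ K) with hq
  have hmon : q.Monic := (minpoly.monic (qb_isIntegral π)).map _
  have hdeg : q.natDegree = (minpoly ℚ π).natDegree := natDegree_map _
  have hdpos := minpoly.natDegree_pos (qb_isIntegral π)
  have hne : q ≠ 1 := by
    intro h
    rw [h, natDegree_one] at hdeg
    omega
  have hroot : aeval π q = 0 := by
    rw [hq, aeval_map_algebraMap, minpoly.aeval]
  have hlt := natDegree_modByMonic_lt p hmon hne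
  rw [hdeg] at hlt
  have hlt' : (p %ₘ q).natDegree < D.e := lt_of_lt_of_le hlt (natDegree_le D hζ)
  rw [← aeval_modByMonic_eq_self_of_root hroot, aeval_eq_sum_range' hlt'] at hp'
  refine ⟨fun i => (p %ₘ q).coeff i, ?_⟩
  rw [← hp']
  refine sum_congr rfl fun i _ => ?_
  rw [Algebra.smul_def]
  rfl

/-- the key estimate -/
theorem step_bound (K : IntermediateField ℚ Qb) [NumberField K]
    (hsq : Squarefree (Ideal.span {(D.f : 𝓞 K)})) (α : Qb)
    (hα : α ∈ K ⊔ IntermediateField.adjoin ℚ {D.pi ζ 0}) (hαK : α ∉ K) :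
    Real.log D.f ≤ D.e * (Real.log 2 + 2 * ht α) := by
  classical
  obtain ⟨c, hc⟩ := expansion D hζ K α hα
  -- a conjugate over `K`
  have hcl : IsAlgClosure K Qb := ⟨inferInstance, ⟨fun z => ((qb_isIntegral z).tower_top).isAlgebraic⟩⟩
  have hn : Normal K Qb := IsAlgClosure.normal K Qb
  have hgal : IsGalois K Qb := { }
  obtain ⟨σ, hσ⟩ : ∃ σ : Qb ≃ₐ[K] Qb, σ α ≠ α := by
    by_contra hcon
    push Not at hcon
    apply hαK
    have h1 : α ∈ (⊥ : IntermediateField K Qb) := (InfiniteGalois.mem_bot_iff_fixed α).mpr hcon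
    rw [IntermediateField.mem_bot] at h1
    obtain ⟨y, hy⟩ := h1
    rw [← hy]
    exact y.2
  obtain ⟨s, hsζ, hs⟩ := D.map_pi hζ (σ : Qb →+* Qb)
  have hsπ : σ (D.pi ζ 0) = D.pi ζ s := by
    have := hs 0
    rw [zero_add] at this
    exact this
  have hσα : σ α = ∑ i ∈ range D.e, (c i : Qb) * (D.pi ζ s) ^ i := by
    rw [hc, map_sum]
    refine sum_congr rfl fun i _ => ?_
    rw [map_mul, map_pow, hsπ]
    congr 1
    exact σ.commutes (c i)
  -- the big field
  have hfd1 : FiniteDimensional ℚ K := inferInstance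
  have hfd2 : FiniteDimensional ℚ (IntermediateField.adjoin ℚ {ζ}) :=
    IntermediateField.adjoin.finiteDimensional (qb_isIntegral ζ)
  let L : IntermediateField ℚ Qb := K ⊔ IntermediateField.adjoin ℚ {ζ}
  have hfd3 : FiniteDimensional ℚ L := IntermediateField.finiteDimensional_sup _ _
  have hL : NumberField L :=
    { to_charZero := inferInstance
      to_finiteDimensional := hfd3 }
  have hKL : K ≤ L := le_sup_left
  have hζL : ζ ∈ L := (le_sup_right : _ ≤ L) (IntermediateField.mem_adjoin_simple_self ℚ ζ)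
  let z : L := ⟨ζ, hζL⟩
  have hz : IsPrimitiveRoot z D.f := by
    apply IsPrimitiveRoot.of_map_of_injective (f := algebraMap L Qb) _ (algebraMap L Qb).injective
    exact hζ
  have hmapz : ∀ r, ((D.pi z r : L) : Qb) = D.pi ζ r := by
    intro r
    have h1 := map_gp (algebraMap L Qb) z ζ D.g D.e D.n r 0 (by rw [pow_zero, pow_one]; rfl)
    rw [add_zero] at h1
    exact h1
  let C : ℕ → L := fun i => ⟨(c i : Qb), hKL (c i).2⟩
  let A : L := ∑ i ∈ range D.e, C i * (D.pi z 0) ^ i
  let B : L := ∑ i ∈ range D.e, C i * (D.pi z s) ^ i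
  have hA : (A : Qb) = α := by
    show algebraMap L Qb A = α
    rw [hc, map_sum]
    refine sum_congr rfl fun i _ => ?_
    rw [map_mul, map_pow]
    show (c i : Qb) * ((D.pi z 0 : L) : Qb) ^ i = _
    rw [hmapz]
  have hB : (B : Qb) = σ α := by
    show algebraMap L Qb B = σ α
    rw [hσα, map_sum]
    refine sum_congr rfl fun i _ => ?_
    rw [map_mul, map_pow]
    show (c i : Qb) * ((D.pi z s : L) : Qb) ^ i = _
    rw [hmapz]
  have hAB : A ≠ B := by
    intro h
    apply hσ
    rw [← hB, ← h, hA]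
  have hf0 : D.f ≠ 0 := D.hf.ne_zero
  have hfL : (D.f : L) ≠ 0 := by exact_mod_cast hf0
  have hval : ∀ (w : FinitePlace L) (r : ℕ), w (D.pi z r) ^ D.e = w (D.f : L) := by
    intro w r
    have h1 := fp_IU w _ (div_ne_zero (pow_ne_zero _ (D.pi_ne_zero hz r)) hfL) (D.IU_pi hz r)
    rw [map_div₀, map_pow, div_eq_one_iff_eq (FinitePlace.pos_iff.mpr hfL).ne'] at h1
    exact h1
  let _ : Algebra K L := (IntermediateField.inclusion hKL).toRingHom.toAlgebra
  have key : ∀ w : FinitePlace L, w (B - A) ^ D.e ≤ w (D.f : L) * (max (w A) 1 * max (w B) 1) ^ D.e := by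
    intro w
    have hfle : w (D.f : L) ≤ 1 := by
      exact fp_nat_le_one w D.f
    rcases hfle.lt_or_eq with hlt | heq
    · have hF0 : 0 < w (D.f : L) := FinitePlace.pos_iff.mpr hfL
      have h1 := local_bound w D.e D.he (D.pi z 0) (D.pi z s) (w (D.f : L)) hF0 hlt
        (hval w 0) (hval w s) C (by
          intro i _ hi
          have hi' : c i ≠ 0 := by
            intro h
            apply hi
            apply Subtype.ext
            show ((c i : K) : Qb) = 0
            rw [h]
            rfl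
          obtain ⟨m, hm⟩ := exists_zpow K L D.f hf0 hsq w hlt (c i) hi'
          exact ⟨m, hm⟩)
      have h2 := pow_le_pow_left₀ (apply_nonneg w _) h1 D.e
      rw [mul_pow (w (D.pi z 0)), hval w 0] at h2
      exact h2
    · rw [heq, one_mul]
      apply pow_le_pow_left₀ (apply_nonneg w _)
      have h1 : w (B - A) ≤ max (w B) (w A) := by
        rw [sub_eq_add_neg]
        refine (FinitePlace.add_le w _ _).trans ?_
        rw [map_neg_eq_map]
      refine h1.trans ?_
      have h4 : w A ≤ max (w A) 1 := le_max_left _ _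
      have h5 : w B ≤ max (w B) 1 := le_max_left _ _
      have h6 : 1 ≤ max (w A) 1 := le_max_right _ _
      have h7 : 1 ≤ max (w B) 1 := le_max_right _ _
      apply max_le
      · nlinarith
      · nlinarith
  have hfin := global_bound_log D.f D.e hf0 A B hAB key
  have hd := finrank_pos' L
  have e1 := Pool.Agent.W70.LD.ht_coe L A
  have e2 := Pool.Agent.W70.LD.ht_coe L B
  rw [hA] at e1
  rw [hB] at e2
  have e3 : ht (σ α) = ht α := Pool.Agent.H58B.ht_conj (σ.restrictScalars ℚ) α
  rw [e3] at e2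
  rw [eq_div_iff hd.ne'] at e1 e2
  rw [← e1, ← e2] at hfin
  have h9 : (finrank ℚ L : ℝ) * Real.log D.f ≤
      finrank ℚ L * (D.e * (Real.log 2 + 2 * ht α)) := by
    refine hfin.trans (le_of_eq ?_)
    ring
  exact le_of_mul_le_mul_left h9 hd

end

end Pool.Agent.T9h93.NB
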