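import Mathlib
import Pool.Agent.T9h93.NB.Step

set_option autoImplicit false

/-!
# The degree of the periods
-/

namespace Pool.Agent.T9h93.NB

open NumberField Finset Polynomial Height Module IntermediateField IsDedekindDomain
open Pool.Agent.H58P (Qb ht qb_isIntegral)
open Pool.Agent.Helper259.AbsHt

lemma squarefree_rat (f : ℕ) (hf : f.Prime) : Squarefree (Ideal.span {(f : 𝓞 ℚ)}) := by
  have h1 : Prime (f : ℤ) := Nat.prime_iff_prime_int.mp hf
  have h2 : Prime (f : 𝓞 ℚ) := by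
    have h3 := (MulEquiv.prime_iff (Rat.ringOfIntegersEquiv.symm : ℤ ≃* 𝓞 ℚ) (p := (f : ℤ))).mpr h1
    have h4 : (Rat.ringOfIntegersEquiv.symm : ℤ ≃* 𝓞 ℚ) (f : ℤ) = (f : 𝓞 ℚ) := by
      show Rat.ringOfIntegersEquiv.symm (f : ℤ) = (f : 𝓞 ℚ)
      rw [map_natCast]
    rwa [h4] at h3
  have h5 : Prime (Ideal.span {(f : 𝓞 ℚ)}) := by
    rw [Ideal.prime_iff_isPrime]
    · exact (Ideal.span_singleton_prime h2.ne_zero).mpr h2
    · rw [Ne, Ideal.span_singleton_eq_bot]
      exact h2.ne_zero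
  exact h5.irreducible.squarefree

lemma exists_place (L : Type*) [Field L] [NumberField L] (f : ℕ) (hf : f.Prime) :
    ∃ w : FinitePlace L, w (f : L) < 1 := by
  have hnu : ¬ IsUnit (f : 𝓞 L) := by
    intro hu
    have h1 : IsIntegral ℤ ((f : L)⁻¹) := by
      obtain ⟨y, hy⟩ := hu.exists_right_inv
      have h2 : (f : L) * (y : L) = 1 := by
        have := congrArg (algebraMap (𝓞 L) L) hy
        simpa using this
      have h3 : (f : L)⁻¹ = y := by
        rw [inv_eq_of_mul_eq_one_right h2]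
      rw [h3]
      exact y.2
    have h5 : IsIntegral ℤ ((f : ℚ)⁻¹) := by
      rw [← isIntegral_algebraMap_iff (algebraMap ℚ L).injective]
      simpa using h1
    obtain ⟨y, hy⟩ := IsIntegrallyClosed.isIntegral_iff.mp h5
    have haq : (f : ℚ) ≠ 0 := by exact_mod_cast hf.ne_zero
    have h6 : (y : ℚ) * f = 1 := by
      have : (y : ℚ) = (f : ℚ)⁻¹ := hy
      rw [this, inv_mul_cancel₀ haq]
    have h7 : y * (f : ℤ) = 1 := by exact_mod_cast h6
    have h8 : IsUnit (f : ℤ) := IsUnit.of_mul_eq_one y (by rw [mul_comm]; exact h7)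
    have h9 := Int.isUnit_iff.mp h8
    have := hf.two_le
    omega
  obtain ⟨m, hm, hfm⟩ := exists_max_ideal_of_mem_nonunits hnu
  have hfL : (f : 𝓞 L) ≠ 0 := by exact_mod_cast hf.ne_zero
  let v : HeightOneSpectrum (𝓞 L) := ⟨m, hm.isPrime, by
    rintro rfl
    exact hfL (by simpa using hfm)⟩
  refine ⟨FinitePlace.mk v, ?_⟩
  have := (FinitePlace.norm_lt_one_iff_mem L (v := v) (f : 𝓞 L)).mpr hfm
  rw [FinitePlace.mk_apply]
  simpa using this

section
variable (D : Dat) {ζ : Qb} (hζ : IsPrimitiveRoot ζ D.f)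
include hζ

lemma le_natDegree : D.e ≤ (minpoly ℚ (D.pi ζ 0)).natDegree := by
  by_contra hcon
  rw [not_le] at hcon
  set q := minpoly ℚ (D.pi ζ 0) with hq
  have hfd2 : FiniteDimensional ℚ (IntermediateField.adjoin ℚ {ζ}) :=
    IntermediateField.adjoin.finiteDimensional (qb_isIntegral ζ)
  let L : IntermediateField ℚ Qb := IntermediateField.adjoin ℚ {ζ}
  have hL : NumberField L :=
    { to_charZero := inferInstance
      to_finiteDimensional := hfd2 }
  have hζL : ζ ∈ L := (IntermediateField.mem_adjoin_simple_self ℚ ζ)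
  let z : L := ⟨ζ, hζL⟩
  have hz : IsPrimitiveRoot z D.f := by
    apply IsPrimitiveRoot.of_map_of_injective (f := algebraMap L Qb) _ (algebraMap L Qb).injective
    exact hζ
  have hmapz : ((D.pi z 0 : L) : Qb) = D.pi ζ 0 := by
    have h1 := map_gp (algebraMap L Qb) z ζ D.g D.e D.n 0 0 (by rw [pow_zero, pow_one]; rfl)
    exact h1
  have hf0 : D.f ≠ 0 := D.hf.ne_zero
  have hfL : (D.f : L) ≠ 0 := by exact_mod_cast hf0
  obtain ⟨w, hw⟩ := exists_place L D.f D.hf
  have hval : w (D.pi z 0) ^ D.e = w (D.f : L) := by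
    have h1 := fp_IU w _ (div_ne_zero (pow_ne_zero _ (D.pi_ne_zero hz 0)) hfL) (D.IU_pi hz 0)
    rw [map_div₀, map_pow, div_eq_one_iff_eq (FinitePlace.pos_iff.mpr hfL).ne'] at h1
    exact h1
  have hF0 : 0 < w (D.f : L) := FinitePlace.pos_iff.mpr hfL
  have h1 := max_formula w D.e D.he (D.pi z 0) (w (D.f : L)) hF0 hw hval
    (fun i => algebraMap ℚ L (q.coeff i)) (by
      intro i _ hi
      have hi' : q.coeff i ≠ 0 := by
        intro h
        apply hi
        rw [h, map_zero]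
      exact exists_zpow ℚ L D.f hf0 (squarefree_rat D.f D.hf) w hw (q.coeff i) hi') q.natDegree hcon
  have h2 : ∑ i ∈ range D.e, algebraMap ℚ L (q.coeff i) * (D.pi z 0) ^ i = 0 := by
    apply (algebraMap L Qb).injective
    rw [map_sum, map_zero]
    have h3 : aeval (D.pi ζ 0) q = 0 := minpoly.aeval _ _
    rw [aeval_eq_sum_range' hcon] at h3
    rw [← h3]
    refine sum_congr rfl fun i _ => ?_
    rw [map_mul, map_pow, Algebra.smul_def, ← IsScalarTower.algebraMap_apply]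
    congr 2
  rw [h2, map_zero] at h1
  have h3 : q.coeff q.natDegree = 1 := (minpoly.monic (qb_isIntegral _)).coeff_natDegree
  rw [h3, map_one, one_mul] at h1
  have h4 : 0 < w (D.pi z 0 ^ q.natDegree) :=
    FinitePlace.pos_iff.mpr (pow_ne_zero _ (D.pi_ne_zero hz 0))
  linarith

lemma exists_shift (t : ℕ) : ∃ σ : Qb ≃ₐ[ℚ] Qb, ∀ r, σ (D.pi ζ r) = D.pi ζ (r + t) := by
  have hprim : IsPrimitiveRoot (ζ ^ (D.g ^ t)) D.f :=
    hζ.pow_of_coprime _ (Nat.Coprime.pow_left _ D.hg)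
  have hconj : IsConjRoot ℚ ζ (ζ ^ (D.g ^ t)) := by
    show minpoly ℚ ζ = minpoly ℚ (ζ ^ (D.g ^ t))
    rw [← cyclotomic_eq_minpoly_rat hζ D.hf.pos, ← cyclotomic_eq_minpoly_rat hprim D.hf.pos]
  have hcl : IsAlgClosure ℚ Qb := ⟨inferInstance, ⟨fun z => (qb_isIntegral z).isAlgebraic⟩⟩
  have hn : Normal ℚ Qb := IsAlgClosure.normal ℚ Qb
  obtain ⟨σ, hσ⟩ := isConjRoot_iff_exists_algEquiv.mp hconj.symm
  exact ⟨σ, fun r => map_gp (σ : Qb →+* Qb) ζ ζ D.g D.e D.n r t hσ⟩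

lemma dvd_of_pi_eq (r : ℕ) (h : D.pi ζ r = D.pi ζ 0) : D.e ∣ r := by
  rw [D.pi_mod hζ] at h
  rw [Nat.dvd_iff_mod_eq_zero]
  set r' := r % D.e with hr'
  have hlt : r' < D.e := Nat.mod_lt _ D.he
  by_contra hne
  have hpos : 0 < r' := Nat.pos_of_ne_zero hne
  have hper : ∀ s, D.pi ζ (s + r') = D.pi ζ s := by
    intro s
    obtain ⟨σ, hσ⟩ := exists_shift D hζ s
    have h1 := congrArg σ h
    rw [hσ, hσ, zero_add, add_comm] at h1
    exact h1
  have hper2 : ∀ s k, D.pi ζ (s + r' * k) = D.pi ζ s := by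
    intro s k
    induction k with
    | zero => rw [mul_zero, add_zero]
    | succ k ih => rw [mul_add, mul_one, ← add_assoc, hper, ih]
  have h2 := natDegree_le_of_conj D (ζ := ζ) r' (by
    intro y hy
    obtain ⟨s, _, hs⟩ := conj_pi D hζ 0 y hy
    refine ⟨s % r', Nat.mod_lt _ hpos, ?_⟩
    rw [hs]
    conv_lhs => rw [← Nat.mod_add_div s r']
    exact hper2 _ _)
  have h3 := le_natDegree D hζ
  omega

lemma modEq_of_pi_eq (a b : ℕ) (h : D.pi ζ a = D.pi ζ b) : a ≡ b [MOD D.e] := by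
  have hea : a ≤ D.e * a := Nat.le_mul_of_pos_left a D.he
  obtain ⟨σ, hσ⟩ := exists_shift D hζ (D.e * a - a)
  have h1 := congrArg σ h
  rw [hσ, hσ, Nat.add_sub_cancel' hea] at h1
  have h2 : D.pi ζ (D.e * a) = D.pi ζ 0 := by
    have := D.pi_period hζ 0 a
    rwa [zero_add] at this
  rw [h2] at h1
  have h3 := dvd_of_pi_eq D hζ _ h1.symm
  have h4 : a + (D.e * a - a) ≡ b + (D.e * a - a) [MOD D.e] := by
    rw [Nat.add_sub_cancel' hea]
    exact ((Nat.modEq_zero_iff_dvd.mpr (dvd_mul_right _ _))).trans (Nat.modEq_zero_iff_dvd.mpr h3).symm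
  exact Nat.ModEq.add_right_cancel' _ h4

lemma pi_mem (r : ℕ) : D.pi ζ r ∈ IntermediateField.adjoin ℚ {D.pi ζ 0} := by
  have : NeZero D.f := ⟨D.hf.ne_zero⟩
  have hint : Algebra.IsIntegral ℚ Qb := ⟨qb_isIntegral⟩
  have hcyc : IsCyclotomicExtension {D.f} ℚ (IntermediateField.adjoin ℚ {ζ}) :=
    hζ.intermediateField_adjoin_isCyclotomicExtension ℚ
  have hab : IsAbelianGalois ℚ (IntermediateField.adjoin ℚ {ζ}) :=
    IsCyclotomicExtension.isAbelianGalois {D.f} ℚ _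
  have hle : IntermediateField.adjoin ℚ {D.pi ζ 0} ≤ IntermediateField.adjoin ℚ {ζ} := by
    rw [IntermediateField.adjoin_le_iff, Set.singleton_subset_iff]
    have hmem : ζ ∈ IntermediateField.adjoin ℚ {ζ} := IntermediateField.mem_adjoin_simple_self ℚ ζ
    exact prod_mem fun k _ => sub_mem (one_mem _) (pow_mem hmem _)
  have hres := @IsAbelianGalois.of_algHom _ _ _ _ _ _ _ _ (IntermediateField.inclusion hle) hab
  have hcl : IsAlgClosure ℚ Qb := ⟨inferInstance, ⟨fun z => (qb_isIntegral z).isAlgebraic⟩⟩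
  have hn : Normal ℚ Qb := IsAlgClosure.normal ℚ Qb
  obtain ⟨σ, hσ⟩ := exists_shift D hζ r
  have h1 := (IntermediateField.normal_iff_forall_map_le.mp hres.1.2) (σ : Qb →ₐ[ℚ] Qb)
  have h2 : D.pi ζ r ∈ (IntermediateField.adjoin ℚ {D.pi ζ 0}).map (σ : Qb →ₐ[ℚ] Qb) := by
    refine ⟨D.pi ζ 0, IntermediateField.mem_adjoin_simple_self ℚ _, ?_⟩
    have := hσ 0
    rw [zero_add] at this
    exact this
  exact h1 h2

end

end Pool.Agent.T9h93.NB
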