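import Mathlib
import Pool.Agent.T9h93.NB.Adic
import Pool.Agent.T9h93.NB.Deg

set_option autoImplicit false

/-!
# The local degree
-/

namespace Pool.Agent.T9h93.NB

open NumberField IsDedekindDomain HeightOneSpectrum Polynomial Module IntermediateField
open Pool.Agent.H58P (Qb ht qb_isIntegral)

theorem local_degree {K0 : IntermediateField ℚ Qb} [NumberField K0] (hK : K0 = ⊥)
    (v : HeightOneSpectrum (𝓞 K0)) (p : ℕ) (hp : p.Prime) (hv : (p : 𝓞 K0) ∈ v.asIdeal)
    (D : Dat) (hpf : p < D.f) (s : ℕ) (hs : Odd s) (hps : p ≡ D.g ^ s [MOD D.f])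
    (j : ℕ) (he : D.e = 2 ^ j) (ζ : Qb) (hζ : IsPrimitiveRoot ζ D.f)
    (S : Set Qb) (hS : D.pi ζ 0 ∈ S)
    (ι : Qb →ₐ[K0] AlgebraicClosure (v.adicCompletion K0))
    (hfd : FiniteDimensional (v.adicCompletion K0)
      (IntermediateField.adjoin (v.adicCompletion K0) (ι '' S))) :
    2 ^ j ≤ finrank (v.adicCompletion K0)
      (IntermediateField.adjoin (v.adicCompletion K0) (ι '' S)) := by
  classical
  have hcz := charZero_adic v
  let Kv := v.adicCompletion K0
  let C' := AlgebraicClosure Kv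
  have hczC : CharZero C' := charZero_of_injective_algebraMap (algebraMap Kv C').injective
  set z : C' := ι ζ with hz
  have hzp : IsPrimitiveRoot z D.f := hζ.map_of_injective ι.toRingHom.injective
  have hcop : Nat.Coprime D.f p := (Nat.coprime_primes D.hf hp).mpr hpf.ne'
  have h1 : aeval (z ^ p) (minpoly Kv z) = 0 :=
    frob_root (R := v.adicCompletionIntegers K0) (F := Kv) (C' := C') p hp
      (frob_mod hK v p hp) (not_isUnit_p v p hv) (by exact_mod_cast hp.ne_zero) D.f D.hf.pos hcop z
      hzp.pow_eq_one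
  have hint : ∀ y : C', IsIntegral Kv y := fun y => Algebra.IsIntegral.isIntegral y
  have hconj : IsConjRoot Kv z (z ^ p) :=
    (minpoly.eq_of_irreducible_of_monic (minpoly.irreducible (hint z)) h1
      (minpoly.monic (hint z)))
  obtain ⟨φ, hφ⟩ := isConjRoot_iff_exists_algEquiv.mp hconj.symm
  have hφz : φ z = z ^ (D.g ^ s) := by
    rw [hφ]
    exact pow_eq_of_modEq hzp _ _ hps
  have hφpi : ∀ r, φ (D.pi z r) = D.pi z (r + s) := fun r =>
    map_gp (φ : C' →+* C') z z D.g D.e D.n r s hφz
  have hιpi : ∀ r, ι (D.pi ζ r) = D.pi z r := fun r => by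
    have := map_gp (ι : Qb →+* C') ζ z D.g D.e D.n r 0 (by rw [pow_zero, pow_one]; rfl)
    exact this
  set M : Kv[X] := minpoly Kv (D.pi z 0) with hM
  have hroot : ∀ m : ℕ, aeval (D.pi z (s * m)) M = 0 := by
    intro m
    induction m with
    | zero => rw [mul_zero]; exact minpoly.aeval _ _
    | succ m ih =>
      rw [mul_add, mul_one, ← hφpi, aeval_algHom_apply, ih, map_zero]
  have hinj : ∀ m m' : ℕ, m < 2 ^ j → m' < 2 ^ j → D.pi z (s * m) = D.pi z (s * m') → m = m' := by
    intro m m' hm hm' h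
    rw [← hιpi, ← hιpi] at h
    have h2 := modEq_of_pi_eq D hζ _ _ (ι.toRingHom.injective h)
    rw [he] at h2
    have h3 : Nat.gcd (2 ^ j) s = 1 := by
      apply Nat.Coprime.pow_left
      rw [Nat.coprime_two_left]
      exact hs
    have h4 := Nat.ModEq.cancel_left_of_coprime h3 h2
    exact Nat.ModEq.eq_of_lt_of_lt h4 hm hm'
  have hsub : (Finset.range (2 ^ j)).image (fun m => D.pi z (s * m)) ⊆
      (M.map (algebraMap Kv C')).roots.toFinset := by
    intro y hy
    obtain ⟨m, _, rfl⟩ := Finset.mem_image.mp hy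
    rw [Multiset.mem_toFinset, mem_roots', IsRoot.def, eval_map_algebraMap]
    exact ⟨(Polynomial.map_ne_zero (minpoly.ne_zero (hint _))), hroot m⟩
  have hcard : (2 : ℕ) ^ j ≤ M.natDegree := by
    have h2 := Finset.card_le_card hsub
    rw [Finset.card_image_of_injOn (by
      intro m hm m' hm' h
      exact hinj m m' (Finset.mem_range.mp hm) (Finset.mem_range.mp hm') h), Finset.card_range] at h2
    refine h2.trans ((Multiset.toFinset_card_le _).trans ((card_roots' _).trans ?_))
    rw [natDegree_map]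
  refine hcard.trans ?_
  have hmem : D.pi z 0 ∈ IntermediateField.adjoin Kv (ι '' S) := by
    rw [← hιpi]
    exact IntermediateField.subset_adjoin _ _ ⟨_, hS, rfl⟩
  have h5 : M = minpoly Kv (⟨D.pi z 0, hmem⟩ : IntermediateField.adjoin Kv (ι '' S)) := by
    rw [hM, ← minpoly.algebraMap_eq (algebraMap (IntermediateField.adjoin Kv (ι '' S)) C').injective]
    rfl
  rw [h5]
  exact minpoly.natDegree_le _

end Pool.Agent.T9h93.NB
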