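import Mathlib
import Pool.Agent.T9h93.NB.Gen

set_option autoImplicit false

/-!
# Choice of the primes
-/

namespace Pool.Agent.T9h93.NB

lemma exists_prime_nonsquare (p : ℕ) (hp : p.Prime) (hp2 : p ≠ 2) (j B : ℕ) :
    ∃ f : ℕ, B < f ∧ f.Prime ∧ 2 ^ j ∣ f - 1 ∧ ¬ IsSquare ((p : ℕ) : ZMod f) := by
  have hpf : Fact p.Prime := ⟨hp⟩
  obtain ⟨a, ha⟩ := FiniteField.exists_nonsquare (F := ZMod p) (by
    rw [ZMod.ringChar_zmod_n]; exact hp2)
  have ha0 : a ≠ 0 := by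
    rintro rfl
    exact ha ⟨0, by simp⟩
  have hco : Nat.Coprime (2 ^ (j + 2)) p := by
    apply Nat.Coprime.pow_left
    rw [Nat.coprime_primes Nat.prime_two hp]
    exact hp2.symm
  obtain ⟨c, hc1, hc2⟩ := Nat.chineseRemainder hco 1 a.val
  have hcop : Nat.Coprime c (2 ^ (j + 2) * p) := by
    apply Nat.Coprime.mul_right
    · rw [Nat.Coprime, hc1.gcd_eq]
      exact Nat.gcd_one_left _
    · rw [Nat.Coprime, hc2.gcd_eq, ← Nat.Coprime, Nat.coprime_comm, Nat.Prime.coprime_iff_not_dvd hp]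
      intro hd
      apply ha0
      have h1 : ((a.val : ℕ) : ZMod p) = 0 := (ZMod.natCast_eq_zero_iff _ _).mpr hd
      rwa [ZMod.natCast_val, ZMod.cast_id] at h1
  have hne : NeZero (2 ^ (j + 2) * p) := ⟨by
    have := hp.ne_zero
    positivity⟩
  obtain ⟨f, hfB, hf, hfc⟩ := Nat.forall_exists_prime_gt_and_eq_mod
    (q := 2 ^ (j + 2) * p) (a := (c : ZMod (2 ^ (j + 2) * p)))
    ((ZMod.isUnit_iff_coprime c _).mpr hcop) (max B p)
  have hfmod : f ≡ c [MOD (2 ^ (j + 2) * p)] := (ZMod.natCast_eq_natCast_iff _ _ _).mp hfc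
  have hf1 : f ≡ 1 [MOD 2 ^ (j + 2)] := (hfmod.of_mul_right p).trans hc1
  have hf2 : f ≡ a.val [MOD p] := (hfmod.of_mul_left _).trans hc2
  have hB : B < f := lt_of_le_of_lt (le_max_left _ _) hfB
  have hpf' : p < f := lt_of_le_of_lt (le_max_right _ _) hfB
  have hff : Fact f.Prime := ⟨hf⟩
  refine ⟨f, hB, hf, ?_, ?_⟩
  · have h1 : 2 ^ (j + 2) ∣ f - 1 := (Nat.modEq_iff_dvd' hf.one_le).mp hf1.symm
    exact (pow_dvd_pow 2 (by omega)).trans h1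
  · have h4 : f % 4 = 1 := by
      have h5 : f ≡ 1 [MOD 4] := by
        apply Nat.ModEq.of_dvd _ hf1
        rw [pow_add]
        exact dvd_mul_left _ _
      exact h5
    rw [ZMod.exists_sq_eq_prime_iff_of_mod_four_eq_one h4 hp2]
    have h6 : ((f : ℕ) : ZMod p) = a := by
      rw [(ZMod.natCast_eq_natCast_iff _ _ _).mpr hf2, ZMod.natCast_val, ZMod.cast_id]
    rw [h6]
    exact ha

theorem exists_dat (p : ℕ) (hp : p.Prime) (hp2 : p ≠ 2) (j B : ℕ) :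
    ∃ D : Dat, B < D.f ∧ D.e = 2 ^ j ∧ p < D.f ∧ ∃ s : ℕ, Odd s ∧ p ≡ D.g ^ s [MOD D.f] := by
  obtain ⟨f, hB, hf, ⟨n, hn⟩, hsq⟩ := exists_prime_nonsquare p hp hp2 j (max B p)
  have hpf : p < f := lt_of_le_of_lt (le_max_right _ _) hB
  obtain ⟨g, hg, hgen⟩ := exists_gen f hf
  refine ⟨⟨f, g, 2 ^ j, n, hf, hg, hgen, by positivity, hn.symm⟩,
    lt_of_le_of_lt (le_max_left _ _) hB, rfl, hpf, ?_⟩
  obtain ⟨s, hs⟩ := hgen p ((Nat.coprime_primes hp hf).mpr hpf.ne)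
  refine ⟨s, ?_, hs⟩
  by_contra hodd
  rw [Nat.not_odd_iff_even] at hodd
  obtain ⟨t, ht⟩ := hodd
  apply hsq
  refine ⟨(g : ZMod f) ^ t, ?_⟩
  have h1 := (ZMod.natCast_eq_natCast_iff _ _ _).mpr hs
  rw [h1, ht]
  push_cast
  rw [pow_add]

end Pool.Agent.T9h93.NB
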