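import Mathlib
import Pool.Agent.T9h93.NB.Deg
import Pool.Agent.T9h93.NB.Dir

set_option autoImplicit false

/-!
# The tower
-/

namespace Pool.Agent.T9h93.NB

open NumberField Polynomial Module IntermediateField
open Pool.Agent.H58P (Qb ht qb_isIntegral)
open Pool.Agent.Helper259.AbsHt

open Classical in
/-- the prime treated at step `i` -/
noncomputable def P (i : ℕ) : ℕ :=
  if (Nat.unpair i).1.Prime ∧ (Nat.unpair i).1 ≠ 2 then (Nat.unpair i).1 else 3

/-- the exponent at step `i` -/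
def J (i : ℕ) : ℕ := (Nat.unpair i).2

lemma P_prime (i : ℕ) : (P i).Prime := by
  unfold P
  split_ifs with h
  · exact h.1
  · exact Nat.prime_three

lemma P_ne (i : ℕ) : P i ≠ 2 := by
  unfold P
  split_ifs with h
  · exact h.2
  · norm_num

lemma P_pair (p j : ℕ) (hp : p.Prime) (hp2 : p ≠ 2) : P (Nat.pair p j) = p := by
  unfold P
  rw [Nat.unpair_pair, if_pos ⟨hp, hp2⟩]

lemma J_pair (p j : ℕ) : J (Nat.pair p j) = j := by
  unfold J
  rw [Nat.unpair_pair]

/-- the conditions at step `i` -/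
structure Good (i : ℕ) (K : IntermediateField ℚ Qb) (D : Dat) (ζ : Qb) : Prop where
  prim : IsPrimitiveRoot ζ D.f
  e_eq : D.e = 2 ^ J i
  lt : P i < D.f
  odd : ∃ s : ℕ, Odd s ∧ P i ≡ D.g ^ s [MOD D.f]
  sq : Squarefree (Ideal.span {(D.f : 𝓞 K)})
  big : (2 : ℝ) ^ J i * (Real.log 2 + 2 * i) < Real.log D.f

lemma exists_good (i : ℕ) (K : IntermediateField ℚ Qb) (hK : FiniteDimensional ℚ K) :
    ∃ d : Dat × Qb, Good i K d.1 d.2 := by
  have hNF : NumberField K :=
    { to_charZero := inferInstance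
      to_finiteDimensional := hK }
  obtain ⟨D, hB, he, hp, s, hs, hps⟩ := exists_dat (P i) (P_prime i) (P_ne i) (J i)
    (max ⌈Real.exp ((2 : ℝ) ^ J i * (Real.log 2 + 2 * i))⌉₊ (discr K).natAbs)
  have hf0 : NeZero ((D.f : ℕ) : Qb) := ⟨by exact_mod_cast D.hf.ne_zero⟩
  obtain ⟨ζ, hζ⟩ : ∃ ζ : Qb, IsPrimitiveRoot ζ D.f := by
    have : NeZero D.f := ⟨D.hf.ne_zero⟩
    exact HasEnoughRootsOfUnity.exists_primitiveRoot _ D.f
  refine ⟨(D, ζ), hζ, he, hp, ⟨s, hs, hps⟩, ?_, ?_⟩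
  · apply Pool.Agent.H58P.squarefree_span D.f D.hf
    intro hdvd
    have h1 : D.f ∣ (discr K).natAbs := by
      rw [← Int.natCast_dvd]
      exact hdvd
    have h2 := Nat.le_of_dvd (Int.natAbs_pos.mpr (discr_ne_zero K)) h1
    have h3 := le_max_right ⌈Real.exp ((2 : ℝ) ^ J i * (Real.log 2 + 2 * i))⌉₊ (discr K).natAbs
    omega
  · have hfpos : (0 : ℝ) < D.f := by exact_mod_cast D.hf.pos
    rw [Real.lt_log_iff_exp_lt hfpos]
    have h3 := le_max_left ⌈Real.exp ((2 : ℝ) ^ J i * (Real.log 2 + 2 * i))⌉₊ (discr K).natAbs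
    calc Real.exp ((2 : ℝ) ^ J i * (Real.log 2 + 2 * i)) ≤
          (⌈Real.exp ((2 : ℝ) ^ J i * (Real.log 2 + 2 * i))⌉₊ : ℝ) := Nat.le_ceil _
      _ < D.f := by exact_mod_cast lt_of_le_of_lt h3 hB

/-- the tower -/
theorem exists_tower : ∃ (K : ℕ → IntermediateField ℚ Qb) (D : ℕ → Dat) (ζ : ℕ → Qb),
    K 0 = ⊥ ∧ (∀ i, FiniteDimensional ℚ (K i)) ∧
    (∀ i, K (i + 1) = K i ⊔ IntermediateField.adjoin ℚ {(D i).pi (ζ i) 0}) ∧
    ∀ i, Good i (K i) (D i) (ζ i) := by
  let St : Type := {K : IntermediateField ℚ Qb // FiniteDimensional ℚ K}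
  have hd : ∀ (i : ℕ) (x : St), ∃ d : Dat × Qb, Good i x.1 d.1 d.2 :=
    fun i x => exists_good i x.1 x.2
  choose d hd using hd
  let f : ℕ → St := fun i => Nat.rec (⟨⊥, inferInstance⟩ : St)
    (fun i x => ⟨x.1 ⊔ IntermediateField.adjoin ℚ {(d i x).1.pi (d i x).2 0}, by
      have := x.2
      have : FiniteDimensional ℚ (IntermediateField.adjoin ℚ {(d i x).1.pi (d i x).2 0}) :=
        IntermediateField.adjoin.finiteDimensional (qb_isIntegral _)
      infer_instance⟩) i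
  exact ⟨fun i => (f i).1, fun i => (d i (f i)).1, fun i => (d i (f i)).2, rfl, fun i => (f i).2,
    fun i => rfl, fun i => hd i (f i)⟩

section
variable (K : ℕ → IntermediateField ℚ Qb) (D : ℕ → Dat) (ζ : ℕ → Qb) (h0 : K 0 = ⊥)
  (hfd : ∀ i, FiniteDimensional ℚ (K i))
  (hstep : ∀ i, K (i + 1) = K i ⊔ IntermediateField.adjoin ℚ {(D i).pi (ζ i) 0})
  (hgood : ∀ i, Good i (K i) (D i) (ζ i))

include hstep in
lemma mono : Monotone K := monotone_nat_of_le_succ fun i => by
  rw [hstep]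
  exact le_sup_left

include h0 hstep hgood in
lemma map_K (σ : Qb →ₐ[ℚ] Qb) (i : ℕ) : (K i).map σ ≤ K i := by
  induction i with
  | zero =>
    rw [h0, IntermediateField.map_bot]
  | succ i ih =>
    rw [hstep, IntermediateField.map_sup]
    apply sup_le_sup ih
    rw [IntermediateField.adjoin_map, Set.image_singleton, IntermediateField.adjoin_le_iff,
      Set.singleton_subset_iff]
    obtain ⟨s, _, hs⟩ := (D i).map_pi (hgood i).prim (σ : Qb →+* Qb)
    have h1 : σ ((D i).pi (ζ i) 0) = (D i).pi (ζ i) s := by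
      have := hs 0
      rw [zero_add] at this
      exact this
    rw [h1]
    exact pi_mem (D i) (hgood i).prim s

include h0 hstep hgood in
lemma map_F (σ : Qb →ₐ[ℚ] Qb) :
    (⨆ i, K i : IntermediateField ℚ Qb).map σ ≤ (⨆ i, K i : IntermediateField ℚ Qb) := by
  rw [IntermediateField.map_iSup]
  exact iSup_mono fun i => map_K K D ζ h0 hstep hgood σ i

include hstep in
lemma mem_F (x : Qb) (hx : x ∈ (⨆ i, K i : IntermediateField ℚ Qb)) : ∃ i, x ∈ K i := by
  have h1 := coe_iSup_of_directed (mono K D ζ hstep).directed_le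
  have h2 : x ∈ ((⨆ i, K i : IntermediateField ℚ Qb) : Set Qb) := hx
  rw [h1, Set.mem_iUnion] at h2
  exact h2

include hfd hstep hgood in
/-- the new elements have large height -/
lemma ht_new (i : ℕ) (α : Qb) (h1 : α ∈ K (i + 1)) (h2 : α ∉ K i) : (i : ℝ) < ht α := by
  have hNF : NumberField (K i) :=
    { to_charZero := inferInstance
      to_finiteDimensional := hfd i }
  rw [hstep] at h1
  have h3 := step_bound (D i) (hgood i).prim (K i) (hgood i).sq α h1 h2
  have h4 := (hgood i).big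
  have h5 : ((D i).e : ℝ) = (2 : ℝ) ^ J i := by rw [(hgood i).e_eq]; push_cast; rfl
  rw [h5] at h3
  have h6 := lt_of_lt_of_le h4 h3
  have h7 := lt_of_mul_lt_mul_left h6 (by positivity)
  linarith

include hfd hstep hgood in
/-- the property of Northcott -/
theorem northcott_F (B : ℝ) :
    {α : Qb | α ∈ (⨆ i, K i : IntermediateField ℚ Qb) ∧ ht α ≤ B}.Finite := by
  obtain ⟨i0, hi0⟩ := exists_nat_ge B
  have hfin := Pool.Agent.H58W.northcott (finrank ℚ (K i0)) B
  refine hfin.subset ?_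
  rintro α ⟨hα, hB⟩
  refine ⟨?_, hB⟩
  have hmem : α ∈ K i0 := by
    by_contra hcon
    obtain ⟨n, hn⟩ := mem_F K D ζ hstep α hα
    classical
    have hex : ∃ n, α ∈ K n := ⟨n, hn⟩
    have h1 := Nat.find_spec hex
    have h2 := fun m => Nat.find_min hex (m := m)
    rcases Nat.lt_or_ge i0 (Nat.find hex) with hlt | hge
    · obtain ⟨m, hm⟩ : ∃ m, Nat.find hex = m + 1 := ⟨Nat.find hex - 1, by omega⟩
      rw [hm] at h1
      have h3 := ht_new K D ζ hfd hstep hgood m α h1 (h2 m (by omega))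
      have h4 : (i0 : ℝ) ≤ m := by exact_mod_cast (by omega : i0 ≤ m)
      linarith
    · exact hcon (mono K D ζ hstep hge h1)
  have hfdi := hfd i0
  have h5 : minpoly ℚ α = minpoly ℚ (⟨α, hmem⟩ : K i0) := by
    rw [← minpoly.algebraMap_eq (algebraMap (K i0) Qb).injective]
    rfl
  rw [h5]
  exact minpoly.natDegree_le _

end

end Pool.Agent.T9h93.NB
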