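import Mathlib
import Pool.Agent.T9h93.NB.Tower
import Pool.Agent.T9h93.NB.LocDeg

set_option autoImplicit false

/-!
# Small points for rational maps, and the finiteness of the set of primes
-/

namespace Pool.Agent.T9h93.NB

open NumberField Polynomial Module IntermediateField IsDedekindDomain Filter Topology
open Pool.Agent.H58P (Qb ht qb_isIntegral)
open Pool.Agent.Helper259.AbsHt
open Pool.Agent.H58W (hM hev lift height_lower iterate_lower absLogHeight_pair)

/-- a point with small canonical height has small height -/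
theorem ht_le_of_tendsto (p q : Qb[X]) (d : ℕ) (hd : max p.natDegree q.natDegree = d)
    (hd2 : 2 ≤ d) (hco : IsCoprime p q) : ∃ C : ℝ, ∀ (α : Qb) (L : ℝ),
      Tendsto (fun n : ℕ => hM (((lift p q d)^[n] (α, 1)).1 / ((lift p q d)^[n] (α, 1)).2) /
        (d : ℝ) ^ n) atTop (𝓝 L) → ht α ≤ C + L := by
  obtain ⟨C, hC⟩ := height_lower p q d hd (by omega) hco
  have hC' : ∀ x y : Qb, d * absLogHeight ![x, y] ≤ max C 0 +
      absLogHeight ![hev p d x y, hev q d x y] := fun x y =>
    (hC x y).trans (by linarith [le_max_left C 0])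
  refine ⟨max C 0, fun α L hlim => ?_⟩
  have hd0 : (0 : ℝ) < d := by
    have : 0 < d := by omega
    exact_mod_cast this
  have hev1 : ∀ n : ℕ, ht α - max C 0 ≤
      hM (((lift p q d)^[n] (α, 1)).1 / ((lift p q d)^[n] (α, 1)).2) / (d : ℝ) ^ n := by
    intro n
    have hdn : (0 : ℝ) < (d : ℝ) ^ n := by positivity
    rw [le_div_iff₀ hdn]
    have h3 := iterate_lower p q d (max C 0) hd2 (le_max_right _ _) hC' (α, 1) n
    rw [absLogHeight_pair ((lift p q d)^[n] (α, 1)).1] at h3
    have h4 : ht (((lift p q d)^[n] (α, 1)).1 / ((lift p q d)^[n] (α, 1)).2) ≤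
      hM (((lift p q d)^[n] (α, 1)).1 / ((lift p q d)^[n] (α, 1)).2) :=
      Pool.Agent.W70.LD.ht_le_hM _
    have h5 : absLogHeight ![α, 1] = ht α := by
      have := absLogHeight_pair α 1
      rwa [div_one] at this
    have h6 : absLogHeight ![((α, 1) : Qb × Qb).1, ((α, 1) : Qb × Qb).2] = ht α := h5
    rw [h6] at h3
    have h7 := le_max_right C 0
    nlinarith
  have h1 := ge_of_tendsto' hlim hev1
  linarith

/-- a finite prime has a residue characteristic -/
lemma exists_residue_char {K0 : Type*} [Field K0] [NumberField K0]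
    (v : HeightOneSpectrum (𝓞 K0)) : ∃ p : ℕ, p.Prime ∧ (p : 𝓞 K0) ∈ v.asIdeal := by
  have hmax := v.isMaximal
  let k := 𝓞 K0 ⧸ v.asIdeal
  let _ : Field k := Ideal.Quotient.field v.asIdeal
  have hfin : Finite k := Ideal.finiteQuotientOfFreeOfNeBot v.asIdeal v.ne_bot
  obtain ⟨p, hp⟩ := CharP.exists k
  have hprime : p.Prime := CharP.char_is_prime k p
  refine ⟨p, hprime, ?_⟩
  rw [← Ideal.Quotient.eq_zero_iff_mem, map_natCast]
  exact CharP.cast_eq_zero k p

end Pool.Agent.T9h93.NB
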